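import Pool.Agent.R357.WS.Seq

namespace Pool.R357.WS

open Finset

noncomputable def hh (τ : ℝ) (k : ℕ) : ℕ := ⌈τ * m τ k / 2⌉₊

/-- free positions -/
def Fr (τ : ℝ) (j : ℕ) : Prop := ∀ k, j < m τ k ∨ hh τ k ≤ j

noncomputable instance (τ : ℝ) : DecidablePred (Fr τ) := fun _ => Classical.dec _

/-- the digits in base 3 -/
noncomputable def dig (τ : ℝ) (ε : ℕ → Fin 2) (j : ℕ) : Fin 3 :=
  if Fr τ j then Fin.castSucc (ε (Nat.count (Fr τ) j)) else 0

noncomputable def F (τ : ℝ) (ε : ℕ → Fin 2) : ℝ := Real.ofDigits (dig τ ε)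

variable {τ : ℝ} (hτ : 3 < τ)

include hτ

lemma hh_le (k : ℕ) : τ * m τ k / 2 ≤ hh τ k := Nat.le_ceil _

lemma hh_lt (k : ℕ) : (hh τ k : ℝ) < τ * m τ k / 2 + 1 :=
  Nat.ceil_lt_add_one (by positivity)

lemma m_lt_hh (k : ℕ) : m τ k < hh τ k := by
  have h1 := hh_le hτ k
  have h2 : (3 : ℝ) ≤ m τ k := by exact_mod_cast m_ge hτ k
  have h3 : (m τ k : ℝ) < hh τ k := by nlinarith
  exact_mod_cast h3

lemma hh_lt_m (k : ℕ) : hh τ k < m τ (k + 1) := by
  have h1 := hh_lt hτ k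
  have h2 : (3 : ℝ) ≤ m τ k := by exact_mod_cast m_ge hτ k
  have h3 := m_le hτ k
  have h4 : (hh τ k : ℝ) < m τ (k + 1) := by nlinarith
  exact_mod_cast h4

lemma hh_mono {j k : ℕ} (h : j ≤ k) : hh τ j ≤ hh τ k := by
  have : Monotone (hh τ) := monotone_nat_of_le_succ fun k => by
    have := hh_lt_m hτ k
    have := m_lt_hh hτ (k + 1)
    omega
  exact this h

lemma free_zero {j : ℕ} (h : j < m τ 0) : Fr τ j := by
  intro k
  left
  have := (m_strictMono hτ).monotone (Nat.zero_le k)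
  omega

lemma free_block {k j : ℕ} (h1 : hh τ k ≤ j) (h2 : j < m τ (k + 1)) : Fr τ j := by
  intro i
  rcases Nat.lt_or_ge k i with h | h
  · left
    have := (m_strictMono hτ).monotone (show k + 1 ≤ i from h)
    omega
  · right
    exact (hh_mono hτ h).trans h1

lemma not_free {k j : ℕ} (h1 : m τ k ≤ j) (h2 : j < hh τ k) : ¬ Fr τ j := by
  intro h
  rcases h k with h | h <;> omega

lemma infinite_free : (Set.ofPred (Fr τ)).Infinite := by
  rw [Set.infinite_iff_exists_gt]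
  intro n
  refine ⟨hh τ n, free_block hτ le_rfl (hh_lt_m hτ n), ?_⟩
  have := m_lt_hh hτ n
  have := m_ge_k hτ n
  omega

lemma count_ge_of_subset (n : ℕ) (s : Finset ℕ) (hs : ∀ j ∈ s, j < n ∧ Fr τ j) :
    s.card ≤ Nat.count (Fr τ) n := by
  rw [Nat.count_eq_card_filter_range]
  apply card_le_card
  intro j hj
  rw [mem_filter, mem_range]
  exact hs j hj

/-- lower bound at the start of the `k`-th forbidden block -/
lemma count_m (k n : ℕ) (hn : m τ k ≤ n) (s : Finset ℕ) (hs : ∀ j ∈ s, j < n ∧ Fr τ j ∧ m τ k ≤ j) :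
    (m τ k : ℝ) / 2 - 3 / 2 + s.card ≤ Nat.count (Fr τ) n := by
  cases k with
  | zero =>
    have h1 := count_ge_of_subset hτ n (range (m τ 0) ∪ s) (by
      intro j hj
      rw [mem_union, mem_range] at hj
      rcases hj with hj | hj
      · exact ⟨by omega, free_zero hτ hj⟩
      · exact ⟨(hs j hj).1, (hs j hj).2.1⟩)
    rw [card_union_of_disjoint, card_range] at h1
    · have h2 : ((m τ 0 + s.card : ℕ) : ℝ) ≤ Nat.count (Fr τ) n := by exact_mod_cast h1
      push_cast at h2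
      have : (0 : ℝ) ≤ m τ 0 := by positivity
      linarith
    · rw [disjoint_left]
      intro j hj hj2
      rw [mem_range] at hj
      have := (hs j hj2).2.2
      omega
  | succ k =>
    have hlt := hh_lt_m hτ k
    have h1 := count_ge_of_subset hτ n (Ico (hh τ k) (m τ (k + 1)) ∪ s) (by
      intro j hj
      rw [mem_union, mem_Ico] at hj
      rcases hj with hj | hj
      · exact ⟨by omega, free_block hτ hj.1 hj.2⟩
      · exact ⟨(hs j hj).1, (hs j hj).2.1⟩)
    rw [card_union_of_disjoint, Nat.card_Ico] at h1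
    · have h2 : ((m τ (k + 1) - hh τ k + s.card : ℕ) : ℝ) ≤ Nat.count (Fr τ) n := by
        exact_mod_cast h1
      rw [Nat.cast_add, Nat.cast_sub hlt.le] at h2
      have h3 := hh_lt hτ k
      have h4 := m_le hτ k
      linarith
    · rw [disjoint_left]
      intro j hj hj2
      rw [mem_Ico] at hj
      have := (hs j hj2).2.2
      omega

lemma le_count (n : ℕ) : (n : ℝ) ≤ τ * (Nat.count (Fr τ) n + 2) := by
  rcases Nat.lt_or_ge n (m τ 0) with h0 | h0
  · have h1 := count_ge_of_subset hτ n (range n) (by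
      intro j hj
      rw [mem_range] at hj
      exact ⟨hj, free_zero hτ (by omega)⟩)
    rw [card_range] at h1
    have h2 : (n : ℝ) ≤ Nat.count (Fr τ) n := by exact_mod_cast h1
    have h3 : (0 : ℝ) ≤ n := by positivity
    nlinarith
  · obtain ⟨k, hk1, hk2⟩ : ∃ k, m τ k ≤ n ∧ n < m τ (k + 1) := by
      classical
      have hex : ∃ k, n < m τ k := ⟨n, by have := m_ge_k hτ n; omega⟩
      set k0 := Nat.find hex with hk0
      have h1 : n < m τ k0 := Nat.find_spec hex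
      have h2 : k0 ≠ 0 := by
        intro h; rw [h] at h1; omega
      obtain ⟨k, hk⟩ := Nat.exists_eq_succ_of_ne_zero h2
      refine ⟨k, ?_, ?_⟩
      · by_contra h
        push Not at h
        have := Nat.find_min' hex h
        omega
      · rw [hk] at h1; exact h1
    have hhl := hh_lt hτ k
    rcases Nat.lt_or_ge n (hh τ k) with h | h
    · have h1 := count_m hτ k n hk1 ∅ (by simp)
      rw [card_empty, Nat.cast_zero, add_zero] at h1
      have h2 : (n : ℝ) < hh τ k := by exact_mod_cast h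
      nlinarith
    · have h1 := count_m hτ k n hk1 (Ico (hh τ k) n) (by
        intro j hj
        rw [mem_Ico] at hj
        have := m_lt_hh hτ k
        exact ⟨hj.2, free_block hτ hj.1 (by omega), by omega⟩)
      rw [Nat.card_Ico, Nat.cast_sub h] at h1
      have h2 : (hh τ k : ℝ) ≤ n := by exact_mod_cast h
      nlinarith

omit hτ in
lemma ofDigits_le_half (d : ℕ → Fin 3) (hd : ∀ j, (d j : ℕ) ≤ 1) : Real.ofDigits d ≤ 1 / 2 := by
  unfold Real.ofDigits
  have h1 : ∀ j, Real.ofDigitsTerm d j ≤ (1 / 3 : ℝ) * (1 / 3) ^ j := by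
    intro j
    unfold Real.ofDigitsTerm
    have h2 : ((d j : ℕ) : ℝ) ≤ 1 := by exact_mod_cast hd j
    calc ((d j : ℕ) : ℝ) * (((3 : ℕ) : ℝ) ^ (j + 1))⁻¹ ≤ 1 * (((3 : ℕ) : ℝ) ^ (j + 1))⁻¹ := by
          gcongr
      _ = (1 / 3 : ℝ) * (1 / 3) ^ j := by
          rw [one_mul, ← inv_pow, pow_succ]; push_cast; rw [one_div]; ring
  have h3 := (Real.summable_ofDigitsTerm (digits := d)).tsum_le_tsum h1
    ((summable_geometric_of_lt_one (by norm_num) (by norm_num)).mul_left _)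
  rw [tsum_mul_left, tsum_geometric_of_lt_one (by norm_num) (by norm_num)] at h3
  refine h3.trans (le_of_eq ?_)
  norm_num

omit hτ in
lemma dig_le (ε : ℕ → Fin 2) (j : ℕ) : (dig τ ε j : ℕ) ≤ 1 := by
  unfold dig
  split_ifs
  · simp; omega
  · simp

omit hτ in
lemma F_nonneg (ε : ℕ → Fin 2) : 0 ≤ F τ ε := Real.ofDigits_nonneg _

omit hτ in
lemma F_lt (ε : ℕ → Fin 2) : F τ ε < 1 := by
  have := ofDigits_le_half (dig τ ε) (dig_le ε)
  unfold F
  linarith

/-- rational approximations to `F ε` -/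
lemma F_approx (ε : ℕ → Fin 2) (k : ℕ) :
    ∃ b : ℤ, |F τ ε - b / Q τ k| ≤ (Q τ k) ^ (-(τ / 2)) := by
  set d := dig τ ε with hd
  refine ⟨((∑ i ∈ range (m τ k), (d i : ℕ) * 3 ^ (m τ k - (i + 1)) : ℕ) : ℤ), ?_⟩
  have h1 : F τ ε = (∑ i ∈ range (hh τ k), Real.ofDigitsTerm d i) +
      (((3 : ℕ) : ℝ) ^ (hh τ k))⁻¹ * Real.ofDigits (fun i ↦ d (i + hh τ k)) :=
    Real.ofDigits_eq_sum_add_ofDigits d (hh τ k)
  have h2 : ∑ i ∈ range (hh τ k), Real.ofDigitsTerm d i =
      ∑ i ∈ range (m τ k), Real.ofDigitsTerm d i := by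
    symm
    apply sum_subset
    · intro i hi
      rw [mem_range] at hi ⊢
      have := m_lt_hh hτ k
      omega
    · intro i hi hi2
      rw [mem_range] at hi hi2
      have h3 : d i = 0 := by
        rw [hd]; unfold dig
        rw [if_neg (not_free hτ (by omega) hi)]
      unfold Real.ofDigitsTerm
      rw [h3]
      simp
  have h3 : ∑ i ∈ range (m τ k), Real.ofDigitsTerm d i =
      (((∑ i ∈ range (m τ k), (d i : ℕ) * 3 ^ (m τ k - (i + 1)) : ℕ) : ℤ) : ℝ) / Q τ k := by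
    push_cast
    rw [sum_div]
    refine sum_congr rfl fun i hi => ?_
    rw [mem_range] at hi
    unfold Real.ofDigitsTerm Q
    rw [pow_sub₀ _ (by norm_num) (show i + 1 ≤ m τ k by omega)]
    push_cast
    field_simp
  rw [h1, h2, h3, add_sub_cancel_left]
  have h4 := Real.ofDigits_nonneg (fun i ↦ d (i + hh τ k))
  have h5 := Real.ofDigits_le_one (fun i ↦ d (i + hh τ k))
  rw [abs_of_nonneg (by positivity)]
  have h6 : (((3 : ℕ) : ℝ) ^ (hh τ k))⁻¹ ≤ (Q τ k) ^ (-(τ / 2)) := by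
    unfold Q
    rw [← Real.rpow_natCast, ← Real.rpow_natCast, ← Real.rpow_neg (by norm_num),
      ← Real.rpow_mul (by norm_num)]
    push_cast
    apply Real.rpow_le_rpow_of_exponent_le (by norm_num)
    have := hh_le hτ k
    linarith
  have h7 : 0 < (((3 : ℕ) : ℝ) ^ (hh τ k))⁻¹ := by positivity
  nlinarith

/-- separation -/
lemma F_sep (ε ε' : ℕ → Fin 2) (i : ℕ) (h1 : ∀ j < i, ε j = ε' j) (h2 : ε i ≠ ε' i) (c : ℕ)
    (hc : τ ≤ c) : (2 : ℝ) ^ (-(2 * (c * (i + 2) + 2) : ℝ)) ≤ |F τ ε - F τ ε'| := by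
  set p := Nat.nth (Fr τ) i with hp
  have hinf := infinite_free hτ
  have hpF : Fr τ p := Nat.nth_mem_of_infinite hinf i
  have hpc : Nat.count (Fr τ) p = i := Nat.count_nth_of_infinite hinf i
  set d := dig τ ε with hd
  set d' := dig τ ε' with hd'
  have hpre : ∀ j < p, d j = d' j := by
    intro j hj
    rw [hd, hd']; unfold dig
    by_cases hf : Fr τ j
    · rw [if_pos hf, if_pos hf]
      have : Nat.count (Fr τ) j < Nat.count (Fr τ) p := Nat.count_strict_mono hf hj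
      rw [hpc] at this
      rw [h1 _ this]
    · rw [if_neg hf, if_neg hf]
  have hdp : |((d p : ℕ) : ℝ) - ((d' p : ℕ) : ℝ)| = 1 := by
    have h3 : (d p : ℕ) = (ε i : ℕ) := by
      rw [hd]; unfold dig; rw [if_pos hpF, hpc]; simp
    have h4 : (d' p : ℕ) = (ε' i : ℕ) := by
      rw [hd']; unfold dig; rw [if_pos hpF, hpc]; simp
    rw [h3, h4]
    have h5 : (ε i : ℕ) ≠ (ε' i : ℕ) := fun h => h2 (Fin.ext h)
    have h6 : (ε i : ℕ) < 2 := (ε i).2
    have h7 : (ε' i : ℕ) < 2 := (ε' i).2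
    rcases (by omega : ((ε i : ℕ) = 0 ∧ (ε' i : ℕ) = 1) ∨ ((ε i : ℕ) = 1 ∧ (ε' i : ℕ) = 0)) with h | h
    · rw [h.1, h.2]; norm_num
    · rw [h.1, h.2]; norm_num
  have hx : F τ ε = (∑ i ∈ range (p + 1), Real.ofDigitsTerm d i) +
      (((3 : ℕ) : ℝ) ^ (p + 1))⁻¹ * Real.ofDigits (fun i ↦ d (i + (p + 1))) :=
    Real.ofDigits_eq_sum_add_ofDigits d (p + 1)
  have hy : F τ ε' = (∑ i ∈ range (p + 1), Real.ofDigitsTerm d' i) +
      (((3 : ℕ) : ℝ) ^ (p + 1))⁻¹ * Real.ofDigits (fun i ↦ d' (i + (p + 1))) :=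
    Real.ofDigits_eq_sum_add_ofDigits d' (p + 1)
  have hsum : ∑ i ∈ range p, Real.ofDigitsTerm d i = ∑ i ∈ range p, Real.ofDigitsTerm d' i := by
    refine sum_congr rfl fun j hj => ?_
    rw [mem_range] at hj
    unfold Real.ofDigitsTerm
    rw [hpre j hj]
  set t := Real.ofDigits (fun i ↦ d (i + (p + 1))) with ht
  set t' := Real.ofDigits (fun i ↦ d' (i + (p + 1))) with ht'
  have ht0 : 0 ≤ t := Real.ofDigits_nonneg _
  have ht0' : 0 ≤ t' := Real.ofDigits_nonneg _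
  have ht1 : t ≤ 1 / 2 := ofDigits_le_half _ (fun j => dig_le ε _)
  have ht1' : t' ≤ 1 / 2 := ofDigits_le_half _ (fun j => dig_le ε' _)
  have hdiff : F τ ε - F τ ε' =
      (((3 : ℕ) : ℝ) ^ (p + 1))⁻¹ * ((((d p : ℕ) : ℝ) - ((d' p : ℕ) : ℝ)) + (t - t')) := by
    rw [hx, hy, sum_range_succ, sum_range_succ, hsum]
    unfold Real.ofDigitsTerm
    ring
  have hlow : (((3 : ℕ) : ℝ) ^ (p + 1))⁻¹ * (1 / 2) ≤ |F τ ε - F τ ε'| := by
    rw [hdiff, abs_mul, abs_of_pos (by positivity : 0 < (((3 : ℕ) : ℝ) ^ (p + 1))⁻¹)]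
    apply mul_le_mul_of_nonneg_left _ (by positivity)
    have h3 : |t - t'| ≤ 1 / 2 := by rw [abs_le]; constructor <;> linarith
    have h4 := abs_sub_abs_le_abs_sub (((d p : ℕ) : ℝ) - ((d' p : ℕ) : ℝ)) (-(t - t'))
    rw [sub_neg_eq_add, abs_neg, hdp] at h4
    linarith
  refine le_trans ?_ hlow
  -- compare powers
  have hple : (p : ℝ) ≤ c * (i + 2) := by
    have h3 := le_count hτ p
    rw [hpc] at h3
    have h4 : (0 : ℝ) ≤ i + 2 := by positivity
    nlinarith
  have h3 : (3 : ℝ) ^ (p + 1) * 2 ≤ 4 ^ (p + 2) := by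
    have h4 : (3 : ℝ) ^ (p + 1) ≤ 4 ^ (p + 1) := pow_le_pow_left₀ (by norm_num) (by norm_num) _
    have h5 : (4 : ℝ) ^ (p + 2) = 4 ^ (p + 1) * 4 := by rw [pow_succ]
    have h6 : (0 : ℝ) < 4 ^ (p + 1) := by positivity
    rw [h5]; nlinarith
  have h4 : (2 : ℝ) ^ (-(2 * (c * (i + 2) + 2) : ℝ)) ≤ ((4 : ℝ) ^ (p + 2))⁻¹ := by
    have h5 : ((4 : ℝ) ^ (p + 2))⁻¹ = (2 : ℝ) ^ (-(2 * ((p : ℝ) + 2))) := by
      rw [Real.rpow_neg (by norm_num), Real.rpow_mul (by norm_num)]
      congr 1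
      norm_num
      rw [← Real.rpow_natCast]
      push_cast
      rfl
    rw [h5]
    apply Real.rpow_le_rpow_of_exponent_le (by norm_num)
    linarith
  refine h4.trans ?_
  rw [← one_div, ← one_div]
  have h5 : 1 / (((3 : ℕ) : ℝ) ^ (p + 1)) * (1 / 2) = 1 / ((3 : ℝ) ^ (p + 1) * 2) := by
    push_cast; field_simp
  rw [h5]
  exact one_div_le_one_div_of_le (by positivity) h3

lemma F_injective : Function.Injective (F τ) := by
  intro ε ε' h
  by_contra hne
  classical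
  have hex : ∃ i, ε i ≠ ε' i := by
    by_contra h2
    push Not at h2
    exact hne (funext h2)
  obtain ⟨c, hc⟩ := exists_nat_ge τ
  have h3 := F_sep hτ ε ε' (Nat.find hex) (fun j hj => by
    have := Nat.find_min hex hj
    push Not at this
    exact this) (Nat.find_spec hex) c hc
  rw [h, sub_self, abs_zero] at h3
  have : (0 : ℝ) < (2 : ℝ) ^ (-(2 * (c * ((Nat.find hex : ℕ) + 2) + 2) : ℝ)) := by positivity
  linarith

/-- Hölder estimate for the inverse coding. -/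
lemma F_holder (c : ℕ) (hc : τ ≤ c) (ε ε' : ℕ → Fin 2) :
    |Real.ofDigits ε - Real.ofDigits ε'| ≤
      (2 : ℝ) ^ ((4 * c + 4 : ℝ) * (1 / (2 * c))) * |F τ ε - F τ ε'| ^ (1 / (2 * c) : ℝ) := by
  have hc0 : (0 : ℝ) < c := by linarith
  by_cases hne : ε = ε'
  · subst hne
    simp
    positivity
  classical
  have hex : ∃ i, ε i ≠ ε' i := by
    by_contra h2
    push Not at h2
    exact hne (funext h2)
  set i := Nat.find hex with hi
  have hpre : ∀ j < i, ε j = ε' j := fun j hj => by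
    have := Nat.find_min hex hj
    push Not at this
    exact this
  have h1 := F_sep hτ ε ε' i hpre (Nat.find_spec hex) c hc
  have h2 := Real.abs_ofDigits_sub_ofDigits_le hpre
  refine h2.trans ?_
  have h3 : ((2 : ℝ) ^ (-(2 * (c * (i + 2) + 2) : ℝ))) ^ (1 / (2 * c) : ℝ) ≤
      |F τ ε - F τ ε'| ^ (1 / (2 * c) : ℝ) :=
    Real.rpow_le_rpow (by positivity) h1 (by positivity)
  refine le_trans (le_of_eq ?_) (mul_le_mul_of_nonneg_left h3 (by positivity))
  rw [← Real.rpow_mul (by norm_num), ← Real.rpow_add (by norm_num)]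
  push_cast
  rw [← Real.rpow_natCast, ← Real.rpow_neg (by norm_num)]
  congr 1
  field_simp
  ring

/-- The set of the numbers `F ε` has positive Hausdorff dimension. -/
lemma dimH_range_F : 0 < dimH (Set.range (F τ)) := by
  obtain ⟨c, hc⟩ := exists_nat_ge τ
  have hc0 : (0 : ℝ) < c := by linarith
  set r : NNReal := ⟨1 / (2 * c), by positivity⟩ with hr
  set K : NNReal := ⟨(2 : ℝ) ^ ((4 * c + 4 : ℝ) * (1 / (2 * c))), by positivity⟩ with hK
  set g : ℝ → ℝ := fun x => Real.ofDigits (Function.invFun (F τ) x) with hg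
  have hgF : ∀ ε, g (F τ ε) = Real.ofDigits ε := by
    intro ε
    simp only [hg]
    rw [Function.leftInverse_invFun (F_injective hτ)]
  have hH : HolderOnWith K r g (Set.range (F τ)) := by
    rintro _ ⟨ε, rfl⟩ _ ⟨ε', rfl⟩
    rw [hgF, hgF, edist_dist, edist_dist, Real.dist_eq, Real.dist_eq]
    have h1 := F_holder hτ c hc ε ε'
    have h2 : (K : ENNReal) = ENNReal.ofReal ((2 : ℝ) ^ ((4 * c + 4 : ℝ) * (1 / (2 * c)))) := by
      rw [ENNReal.ofReal_eq_coe_nnreal (by positivity)]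
      rfl
    rw [h2, ENNReal.ofReal_rpow_of_nonneg (abs_nonneg _) (by positivity),
      ← ENNReal.ofReal_mul (by positivity)]
    exact ENNReal.ofReal_le_ofReal h1
  have hr0 : 0 < r := NNReal.coe_pos.1 (show (0 : ℝ) < 1 / (2 * c) by positivity)
  have h1 := hH.dimH_image_le hr0
  have h2 : Set.Icc (0 : ℝ) 1 ⊆ g '' Set.range (F τ) := by
    intro y hy
    obtain ⟨ε, _, hε⟩ := Real.ofDigits_SurjOn (b := 2) (by norm_num) hy
    exact ⟨F τ ε, ⟨ε, rfl⟩, by rw [hgF, hε]⟩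
  have h3 : dimH (Set.Icc (0 : ℝ) 1) = 1 := by
    rw [Real.dimH_of_nonempty_interior]
    · simp
    · rw [interior_Icc]; exact ⟨1 / 2, by norm_num, by norm_num⟩
  have h4 : (1 : ENNReal) ≤ dimH (Set.range (F τ)) / r := by
    rw [← h3]; exact (dimH_mono h2).trans h1
  rw [pos_iff_ne_zero]
  intro h
  rw [h, ENNReal.zero_div] at h4
  simp at h4

end Pool.R357.WS
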