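import Pool.Agent.R357.WS.Lower
import Pool.Agent.R357.WS.Digits

namespace Pool.R357.WS

open Finset

theorem lower_inf {τ : ℝ} (hτ : 3 < τ) (x1 : ℝ)
    (hx : ∀ k, ∃ b : ℤ, |x1 - b / Q τ k| ≤ (Q τ k) ^ (-(τ / 2)))
    (s : ℝ) (hs0 : 0 < s) (hs : s < 1 - 1 / τ) (C : ℝ) :
    ¬ ∀ᶠ N : ℕ in Filter.atTop, ‖S x1 (X2 τ) N‖ ≤ C * (N : ℝ) ^ s := by
  intro h
  obtain ⟨N0, hN0⟩ := Filter.eventually_atTop.1 h
  have hτ0 : 0 < τ := by linarith
  set p : ℝ := max (τ * s / 2) 1 with hp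
  set g : ℝ := (τ - 1) / 2 - p with hg
  have hg0 : 0 < g := by
    have h1 : τ * s < τ - 1 := by
      have := mul_lt_mul_of_pos_left hs hτ0
      have h2 : τ * (1 - 1 / τ) = τ - 1 := by field_simp
      linarith
    rw [hg, sub_pos, hp, max_lt_iff]
    constructor <;> linarith
  set D : ℝ := 40 * (|C| + 3 / 2) with hD
  have hQt := Q_tendsto hτ
  have e1 := hQt.eventually_ge_atTop (N0 : ℝ)
  have e2 := ((tendsto_rpow_atTop hg0).comp hQt).eventually_gt_atTop D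
  have e3 := ((tendsto_rpow_atTop (show 0 < τ / 2 - 1 by linarith)).comp hQt).eventually_ge_atTop 20
  obtain ⟨k, hk1, hk2, hk3⟩ := (e1.and (e2.and e3)).exists
  simp only [Function.comp] at hk2 hk3
  have hQ := Q_pos (τ := τ) k
  have hQ27 := Q_ge hτ k
  have hQ1 := Q_pos (τ := τ) (k + 1)
  obtain ⟨b, hb⟩ := hx k
  obtain ⟨ha1, ha2⟩ := approx hτ k
  have hlo := Q_lower hτ k
  set q : ℕ := 3 ^ m τ k with hq
  have hqQ : (q : ℝ) = Q τ k := by rw [hq]; unfold Q; push_cast; rfl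
  have hq0 : 0 < q := by rw [hq]; positivity
  have hodd : Odd q := by rw [hq]; exact Odd.pow (by decide)
  have hc : IsCoprime ((A τ k : ℕ) : ℤ) (q : ℤ) := by
    have := A_coprime hτ k
    rw [Nat.cast_mul] at this
    exact IsCoprime.of_mul_left_right this
  set P : ℝ := (Q τ k) ^ (τ / 2) with hP
  have hP0 : 0 < P := by positivity
  have hP2 : (Q τ k) ^ τ = P ^ 2 := by
    rw [hP, ← Real.rpow_natCast, ← Real.rpow_mul hQ.le]; congr 1; push_cast; ring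
  have hPQ : (Q τ k) ^ (τ / 2 - 1) = P / Q τ k := by
    rw [hP, Real.rpow_sub_one hQ.ne']
  have hPinv : (Q τ k) ^ (-(τ / 2)) = P⁻¹ := by rw [hP, Real.rpow_neg hQ.le]
  rw [hPinv] at hb
  rw [hPQ] at hk3
  rw [hP2] at hlo
  set M : ℕ := ⌊P / Q τ k / 20⌋₊ with hM
  have hM1 : (M : ℝ) ≤ P / Q τ k / 20 := Nat.floor_le (by positivity)
  have hM2 : P / Q τ k / 20 < M + 1 := Nat.lt_floor_add_one _
  have hM3 : 1 ≤ M := by
    rw [hM, Nat.one_le_floor_iff]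
    linarith
  have hN : (((q * M : ℕ) : ℝ)) ≤ P / 20 := by
    push_cast
    rw [hqQ]
    calc Q τ k * M ≤ Q τ k * (P / Q τ k / 20) := by gcongr
      _ = P / 20 := by field_simp
  have hNN0 : N0 ≤ q * M := by
    have h1 : N0 ≤ q := by
      rw [← hqQ] at hk1; exact_mod_cast hk1
    calc N0 ≤ q := h1
      _ = q * 1 := by ring
      _ ≤ q * M := Nat.mul_le_mul_left _ hM3
  have hbound := hN0 (q * M) hNN0
  set δ1 : ℝ := x1 - b / Q τ k with hδ1
  set δ2 : ℝ := X2 τ - A τ k / Q τ k with hδ2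
  have hδ2abs : |δ2| ≤ 2 / P ^ 2 := by
    rw [abs_of_nonneg (by linarith [inv_pos.2 hQ1])]
    refine ha2.trans ?_
    rw [← div_eq_mul_inv]
    apply div_le_div_of_nonneg_left (by norm_num) (by positivity) hlo
  have hN0' : (0 : ℝ) ≤ ((q * M : ℕ) : ℝ) := by positivity
  have hδ : 2 * Real.pi * (|δ1| * (q * M : ℕ) + |δ2| * (q * M : ℕ) ^ 2) ≤ 1 / 2 := by
    have h1 : |δ1| * (q * M : ℕ) ≤ 1 / 20 := by
      calc |δ1| * (q * M : ℕ) ≤ P⁻¹ * (P / 20) := by gcongr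
        _ = 1 / 20 := by field_simp
    have h2 : |δ2| * ((q * M : ℕ) : ℝ) ^ 2 ≤ 1 / 200 := by
      calc |δ2| * ((q * M : ℕ) : ℝ) ^ 2 ≤ 2 / P ^ 2 * (P / 20) ^ 2 := by gcongr
        _ = 1 / 200 := by field_simp; norm_num
    have h3 := Real.pi_lt_d2
    have h4 := Real.pi_pos
    have h5 : 2 * Real.pi * (|δ1| * (q * M : ℕ) + |δ2| * (q * M : ℕ) ^ 2) ≤
        2 * Real.pi * (1 / 20 + 1 / 200) := by gcongr
    refine h5.trans ?_
    nlinarith
  have hlow := lower q hq0 hodd (A τ k : ℤ) b hc δ1 δ2 M hδ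
  have hx1 : (b : ℝ) / q + δ1 = x1 := by rw [hqQ, hδ1]; ring
  have hx2 : (((A τ k : ℕ) : ℤ) : ℝ) / q + δ2 = X2 τ := by rw [hqQ, hδ2]; push_cast; ring
  rw [hx1, hx2] at hlow
  rw [hqQ] at hlow
  have hle := hlow.trans hbound
  -- final comparison
  set r := Real.sqrt (Q τ k) with hr
  have hr0 : 0 < r := Real.sqrt_pos.2 hQ
  have hr2 : r * r = Q τ k := Real.mul_self_sqrt hQ.le
  have hr1 : 1 ≤ r := by
    by_contra hcon
    push Not at hcon
    nlinarith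
  have hrQ : r ≤ Q τ k := by nlinarith
  have hNs : C * (((q * M : ℕ) : ℝ)) ^ s ≤ |C| * P ^ s := by
    have h1 : (((q * M : ℕ) : ℝ)) ^ s ≤ P ^ s :=
      Real.rpow_le_rpow hN0' (by linarith) hs0.le
    calc C * (((q * M : ℕ) : ℝ)) ^ s ≤ |C| * (((q * M : ℕ) : ℝ)) ^ s := by
          gcongr; exact le_abs_self C
      _ ≤ |C| * P ^ s := by gcongr
  set Z : ℝ := (Q τ k) ^ p with hZ
  have hPs : P ^ s ≤ Z := by
    rw [hP, ← Real.rpow_mul hQ.le, hZ]
    apply Real.rpow_le_rpow_of_exponent_le (by linarith)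
    calc τ / 2 * s = τ * s / 2 := by ring
      _ ≤ p := le_max_left _ _
  have hQZ : Q τ k ≤ Z := by
    calc Q τ k = (Q τ k) ^ (1 : ℝ) := by simp
      _ ≤ Z := Real.rpow_le_rpow_of_exponent_le (by linarith) (le_max_right _ _)
  have hZ0 : 0 < Z := by positivity
  have hW : r * (P / Q τ k) = (Q τ k) ^ g * Z := by
    rw [hZ, ← Real.rpow_add hQ, ← hPQ, hr, Real.sqrt_eq_rpow, ← Real.rpow_add hQ]
    congr 1
    rw [hg]; ring
  have h1 : r * (P / Q τ k) / 40 - r / 2 - Q τ k ≤ |C| * P ^ s := by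
    have h2 : r * (P / Q τ k / 20 - 1) / 2 ≤ r * M / 2 := by
      have : P / Q τ k / 20 - 1 ≤ M := by linarith
      have := mul_le_mul_of_nonneg_left this hr0.le
      linarith
    have h3 : r * (P / Q τ k) / 40 - r / 2 = r * (P / Q τ k / 20 - 1) / 2 := by ring
    rw [h3]
    linarith
  have h2 : |C| * P ^ s ≤ |C| * Z := mul_le_mul_of_nonneg_left hPs (abs_nonneg _)
  have h3 : (Q τ k) ^ g * Z ≤ D * Z := by
    rw [← hW, hD]
    nlinarith
  have h4 : (Q τ k) ^ g ≤ D := le_of_mul_le_mul_right h3 hZ0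
  linarith

end Pool.R357.WS
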