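import Pool.Agent.R357.WS.Upper

namespace Pool.R357.WS

open Finset

lemma e_add_int (t : ℝ) (n : ℤ) : e (t + n) = e t := by rw [e_add, e_int, mul_one]

/-- The Gauss sum. -/
lemma gauss (q : ℕ) (hq : 0 < q) (hodd : Odd q) (a b : ℤ) (hc : IsCoprime a (q : ℤ)) :
    ‖∑ r ∈ Ioc (0 : ℤ) q, e ((b * r + a * r ^ 2 : ℤ) / q)‖ ^ 2 = q := by
  haveI : NeZero q := ⟨hq.ne'⟩
  have hq' : (0 : ℝ) < q := by exact_mod_cast hq
  set ψ : AddChar (ZMod q) ℂ := ZMod.stdAddChar with hψ
  have he : ∀ j : ℤ, e ((j : ℝ) / q) = ψ (j : ZMod q) := by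
    intro j
    rw [hψ, ZMod.stdAddChar_coe]
    unfold e
    congr 1
    push_cast
    ring
  have h1 : ∑ r ∈ Ioc (0 : ℤ) q, e ((b * r + a * r ^ 2 : ℤ) / q) =
      ∑ x : ZMod q, ψ (b * x + a * x ^ 2) := by
    have hinj : Set.InjOn (fun r : ℤ => (r : ZMod q)) (Ioc (0 : ℤ) q) := by
      intro x hx y hy hxy
      simp only [coe_Ioc, Set.mem_Ioc] at hx hy
      simp only at hxy
      have h2 : ((x - y : ℤ) : ZMod q) = 0 := by push_cast; rw [hxy, sub_self]
      rw [ZMod.intCast_zmod_eq_zero_iff_dvd] at h2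
      obtain ⟨k, hk⟩ := h2
      have hq0 : (0 : ℤ) < q := by exact_mod_cast hq
      have h3 : k = 0 := by
        by_contra hk0
        rcases lt_or_gt_of_ne hk0 with h | h
        · have : (q : ℤ) * k ≤ -q := by nlinarith
          omega
        · have : (q : ℤ) * k ≥ q := by nlinarith
          omega
      rw [h3] at hk
      omega
    have hcard : (univ : Finset (ZMod q)).card ≤ (Ioc (0 : ℤ) q).card := by
      rw [card_univ, ZMod.card, Int.card_Ioc]; omega
    have hsurj : Set.SurjOn (fun r : ℤ => (r : ZMod q)) (Ioc (0 : ℤ) q) (univ : Finset (ZMod q)) :=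
      surjOn_of_injOn_of_card_le _ (fun _ _ => by simp) hinj hcard
    refine sum_nbij (fun r : ℤ => (r : ZMod q)) (by simp) hinj hsurj ?_
    intro r _
    rw [he]
    push_cast
    rfl
  rw [h1]
  set G := ∑ x : ZMod q, ψ (b * x + a * x ^ 2) with hG
  have hprim : ψ.IsPrimitive := ZMod.isPrimitive_stdAddChar q
  have h2 : G * (starRingEnd ℂ) G = q := by
    have h3 : (starRingEnd ℂ) G = ∑ y : ZMod q, ψ (-(b * y + a * y ^ 2)) := by
      rw [hG, map_sum]
      refine sum_congr rfl fun y _ => ?_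
      rw [AddChar.map_neg_eq_conj]
    rw [h3, mul_sum]
    have h4 : ∀ y : ZMod q, G * ψ (-(b * y + a * y ^ 2)) =
        ∑ h : ZMod q, ψ (b * h + a * h ^ 2) * ψ (y * (2 * a * h)) := by
      intro y
      rw [hG, sum_mul]
      rw [← Equiv.sum_comp (Equiv.addLeft y)]
      refine sum_congr rfl fun h _ => ?_
      rw [← AddChar.map_add_eq_mul, ← AddChar.map_add_eq_mul]
      congr 1
      simp only [Equiv.coe_addLeft]
      ring
    rw [sum_congr rfl (fun y _ => h4 y), sum_comm]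
    have h5 : ∀ h : ZMod q, ∑ y : ZMod q, ψ (b * h + a * h ^ 2) * ψ (y * (2 * a * h)) =
        if h = 0 then (q : ℂ) else 0 := by
      intro h
      rw [← mul_sum, AddChar.sum_mulShift _ hprim]
      have hunit : IsUnit ((2 : ZMod q) * (a : ZMod q)) := by
        apply IsUnit.mul
        · have : IsUnit ((2 : ℕ) : ZMod q) := by
            rw [ZMod.isUnit_iff_coprime]
            exact (Nat.coprime_two_left.2 hodd)
          simpa using this
        · obtain ⟨c, d, hcd⟩ := hc
          have h6 : (c : ZMod q) * (a : ZMod q) = 1 := by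
            have : ((c * a + d * q : ℤ) : ZMod q) = 1 := by rw [hcd]; simp
            simpa using this
          exact IsUnit.of_mul_eq_one_right _ h6
      by_cases hh : h = 0
      · subst hh
        simp
      · have h7 : 2 * (a : ZMod q) * h ≠ 0 := by
          intro h8
          apply hh
          exact (hunit.mul_right_eq_zero).1 h8
        rw [if_neg h7, if_neg hh]
        simp
    rw [sum_congr rfl (fun h _ => h5 h)]
    simp
  have h3 : ((‖G‖ ^ 2 : ℝ) : ℂ) = (q : ℝ) := by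
    rw [← Complex.normSq_eq_norm_sq, ← Complex.mul_conj, h2]
    simp
  exact_mod_cast h3

/-- Splitting into blocks. -/
lemma block_split (w : ℤ → ℂ) (q : ℕ) (M : ℕ) :
    ∑ n ∈ Ioc (0 : ℤ) ((q * M : ℕ) : ℤ), w n =
      ∑ j ∈ range M, ∑ r ∈ Ioc (0 : ℤ) q, w (q * j + r) := by
  induction M with
  | zero => simp
  | succ M ih =>
    rw [sum_range_succ, ← ih]
    have h1 : Ioc (0 : ℤ) ((q * (M + 1) : ℕ) : ℤ) =
        Ioc (0 : ℤ) ((q * M : ℕ) : ℤ) ∪ Ioc ((q * M : ℕ) : ℤ) ((q * M : ℕ) + q : ℤ) := by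
      ext x
      simp only [mem_union, mem_Ioc]
      push_cast
      have h2 : (0 : ℤ) ≤ q * M := by positivity
      have h3 : (0 : ℤ) ≤ q := by positivity
      rw [mul_add, mul_one]
      constructor
      · rintro ⟨h4, h5⟩
        by_cases h6 : x ≤ q * M
        · left; exact ⟨h4, h6⟩
        · right; constructor <;> linarith
      · rintro (⟨h4, h5⟩ | ⟨h4, h5⟩) <;> constructor <;> linarith
    rw [h1, sum_union]
    · congr 1
      symm
      refine sum_nbij (fun r => (q * M : ℤ) + r) ?_ ?_ ?_ ?_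
      · intro r hr
        rw [mem_Ioc] at hr ⊢
        push_cast
        constructor <;> linarith
      · intro x _ y _ hxy
        simpa using hxy
      · intro n hn
        rw [coe_Ioc, Set.mem_Ioc] at hn
        refine ⟨n - q * M, ?_, by simp⟩
        rw [coe_Ioc, Set.mem_Ioc]
        push_cast at hn
        constructor <;> linarith
      · intro r _; rfl
    · rw [disjoint_left]
      intro x hx hy
      rw [mem_Ioc] at hx hy
      linarith

/-- The major-arc lower bound. -/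
theorem lower (q : ℕ) (hq : 0 < q) (hodd : Odd q) (a b : ℤ) (hc : IsCoprime a (q : ℤ))
    (δ1 δ2 : ℝ) (M : ℕ)
    (hδ : 2 * Real.pi * (|δ1| * (q * M : ℕ) + |δ2| * (q * M : ℕ) ^ 2) ≤ 1 / 2) :
    Real.sqrt q * M / 2 - q ≤ ‖S (b / q + δ1) (a / q + δ2) (q * M)‖ := by
  have hq' : (0 : ℝ) < q := by exact_mod_cast hq
  set G := ∑ r ∈ Ioc (0 : ℤ) q, e ((b * r + a * r ^ 2 : ℤ) / q) with hG
  have hGn : ‖G‖ = Real.sqrt q := by
    rw [← gauss q hq hodd a b hc, ← hG]
    rw [Real.sqrt_sq (norm_nonneg _)]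
  set v : ℤ → ℂ := fun n => e (δ1 * n + δ2 * n ^ 2) with hv
  have hS : S (b / q + δ1) (a / q + δ2) (q * M) =
      ∑ j ∈ range M, ∑ r ∈ Ioc (0 : ℤ) q, e ((b * r + a * r ^ 2 : ℤ) / q) * v (q * j + r) := by
    unfold S
    rw [block_split]
    refine sum_congr rfl fun j _ => sum_congr rfl fun r _ => ?_
    rw [hv]
    simp only
    rw [← e_add]
    have h1 : ((b : ℝ) / q + δ1) * ((q * j + r : ℤ) : ℝ) + (a / q + δ2) * ((q * j + r : ℤ) : ℝ) ^ 2 =
        (((b * r + a * r ^ 2 : ℤ) : ℝ) / q + (δ1 * ((q * j + r : ℤ) : ℝ) +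
          δ2 * ((q * j + r : ℤ) : ℝ) ^ 2)) + ((b * j + a * (q * j ^ 2 + 2 * j * r) : ℤ) : ℝ) := by
      push_cast
      field_simp
      ring
    rw [h1, e_add_int]
  set T := ∑ j ∈ range M, v (q * j) with hT
  set N : ℝ := ((q * M : ℕ) : ℝ) with hN
  have hN' : N = q * M := by rw [hN]; push_cast; ring
  set κ := 2 * Real.pi * (|δ1| * N + |δ2| * N ^ 2) with hκ
  have hκ0 : 0 ≤ κ := by positivity
  -- difference
  have hdiff : ‖S (b / q + δ1) (a / q + δ2) (q * M) - G * T‖ ≤ 2 * κ * q := by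
    have h1 : S (b / q + δ1) (a / q + δ2) (q * M) - G * T =
        ∑ j ∈ range M, ∑ r ∈ Ioc (0 : ℤ) q,
          e ((b * r + a * r ^ 2 : ℤ) / q) * (v (q * j + r) - v (q * j)) := by
      rw [hS, hT, mul_sum, ← sum_sub_distrib]
      refine sum_congr rfl fun j _ => ?_
      rw [hG, sum_mul, ← sum_sub_distrib]
      refine sum_congr rfl fun r _ => ?_
      ring
    rw [h1]
    have h2 : ∀ j ∈ range M, ∀ r ∈ Ioc (0 : ℤ) q,
        ‖e ((b * r + a * r ^ 2 : ℤ) / q) * (v (q * j + r) - v (q * j))‖ ≤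
        2 * Real.pi * (|δ1| * q + |δ2| * (2 * N * q)) := by
      intro j hj r hr
      rw [norm_mul, norm_e, one_mul]
      refine (e_sub_le _ _).trans ?_
      apply mul_le_mul_of_nonneg_left _ (by positivity)
      rw [mem_range] at hj
      rw [mem_Ioc] at hr
      have hr0 : (0 : ℝ) ≤ r := by exact_mod_cast hr.1.le
      have hr1 : (r : ℝ) ≤ q := by exact_mod_cast hr.2
      have hj1 : (j : ℝ) + 1 ≤ M := by exact_mod_cast hj
      have h3 : δ1 * ((q * j + r : ℤ) : ℝ) + δ2 * ((q * j + r : ℤ) : ℝ) ^ 2 -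
          (δ1 * ((q * j : ℤ) : ℝ) + δ2 * ((q * j : ℤ) : ℝ) ^ 2) =
          δ1 * r + δ2 * (r * (2 * (q * j) + r)) := by
        push_cast; ring
      rw [h3]
      refine (abs_add_le _ _).trans ?_
      rw [abs_mul, abs_mul, abs_of_nonneg hr0]
      have hj0 : (0 : ℝ) ≤ j := by positivity
      have h4 : (q : ℝ) * j + r ≤ N := by
        rw [hN']; nlinarith
      have h5 : 0 ≤ 2 * ((q : ℝ) * j) + r := by positivity
      rw [abs_of_nonneg (mul_nonneg hr0 h5)]
      have h6 : (r : ℝ) * (2 * (q * j) + r) ≤ 2 * N * q := by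
        have h7 : 2 * ((q : ℝ) * j) + r ≤ 2 * N := by linarith
        calc (r : ℝ) * (2 * (q * j) + r) ≤ q * (2 * N) := by gcongr
          _ = _ := by ring
      gcongr
    refine (norm_sum_le _ _).trans ?_
    refine (sum_le_sum (fun j hj => (norm_sum_le _ _).trans (sum_le_sum (h2 j hj)))).trans ?_
    simp only [sum_const, card_range, Int.card_Ioc, nsmul_eq_mul, sub_zero, Int.toNat_natCast]
    have h3 : (M : ℝ) * (q * (2 * Real.pi * (|δ1| * q + |δ2| * (2 * N * q)))) =
        2 * Real.pi * (|δ1| * N + 2 * |δ2| * N ^ 2) * q := by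
      rw [hN']; ring
    rw [h3, hκ]
    apply mul_le_mul_of_nonneg_right _ hq'.le
    have : 0 ≤ |δ1| * N := by positivity
    nlinarith [Real.pi_pos]
  have hTlow : (M : ℝ) / 2 ≤ ‖T‖ := by
    have h1 : ‖(M : ℂ) - T‖ ≤ M * (1 / 2) := by
      have h2 : (M : ℂ) - T = ∑ j ∈ range M, (1 - v (q * j)) := by
        rw [sum_sub_distrib]; simp [hT]
      rw [h2]
      refine (norm_sum_le _ _).trans ?_
      have h3 : ∀ j ∈ range M, ‖1 - v (q * j)‖ ≤ 1 / 2 := by
        intro j hj
        rw [mem_range] at hj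
        rw [norm_sub_rev]
        refine (e_sub_one_le _).trans ?_
        refine le_trans ?_ hδ
        apply mul_le_mul_of_nonneg_left _ (by positivity)
        refine (abs_add_le _ _).trans ?_
        rw [abs_mul, abs_mul]
        have hj1 : (j : ℝ) ≤ M := by exact_mod_cast hj.le
        have hj0 : (0 : ℝ) ≤ j := by positivity
        have h4 : |((q * j : ℤ) : ℝ)| ≤ N := by
          push_cast
          rw [abs_of_nonneg (by positivity), hN']
          gcongr
        have h5 : |((q * j : ℤ) : ℝ) ^ 2| ≤ N ^ 2 := by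
          rw [abs_pow]
          exact pow_le_pow_left₀ (abs_nonneg _) h4 2
        gcongr
      refine (sum_le_sum h3).trans ?_
      simp
    have h2 : ‖(M : ℂ)‖ ≤ ‖(M : ℂ) - T‖ + ‖T‖ := by
      have := norm_add_le ((M : ℂ) - T) T
      simpa using this
    rw [Complex.norm_natCast] at h2
    linarith
  have h1 : ‖G * T‖ ≤ ‖S (b / q + δ1) (a / q + δ2) (q * M) - G * T‖ +
      ‖S (b / q + δ1) (a / q + δ2) (q * M)‖ := by
    have h2 := norm_sub_le (S (b / q + δ1) (a / q + δ2) (q * M) - G * T)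
      (S (b / q + δ1) (a / q + δ2) (q * M))
    have h3 : S (b / q + δ1) (a / q + δ2) (q * M) - G * T -
      (S (b / q + δ1) (a / q + δ2) (q * M)) = -(G * T) := by ring
    rw [h3, norm_neg] at h2
    exact h2
  rw [norm_mul, hGn] at h1
  have h2 : Real.sqrt q * (M / 2) ≤ Real.sqrt q * ‖T‖ :=
    mul_le_mul_of_nonneg_left hTlow (Real.sqrt_nonneg _)
  have h3 : 2 * κ * q ≤ q := by nlinarith
  have h4 : Real.sqrt q * M / 2 = Real.sqrt q * (M / 2) := by ring
  rw [h4]
  linarith

end Pool.R357.WS
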