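import Mathlib

namespace Pool.R357.WS

open Finset

/-- exponents: `m_0 = 3`, `m_{k+1} = ⌈τ m_k⌉`. -/
noncomputable def m (τ : ℝ) : ℕ → ℕ
  | 0 => 3
  | k + 1 => ⌈τ * m τ k⌉₊

noncomputable def Q (τ : ℝ) (k : ℕ) : ℝ := (3 : ℝ) ^ (m τ k)

noncomputable def X2 (τ : ℝ) : ℝ := ∑' k, (Q τ k)⁻¹

noncomputable def A (τ : ℝ) (k : ℕ) : ℕ := ∑ j ∈ range (k + 1), 3 ^ (m τ k - m τ j)

variable {τ : ℝ} (hτ : 3 < τ)

lemma m_succ (k : ℕ) : m τ (k + 1) = ⌈τ * m τ k⌉₊ := rfl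

include hτ

lemma m_le (k : ℕ) : τ * m τ k ≤ m τ (k + 1) := by rw [m_succ]; exact Nat.le_ceil _

lemma m_lt (k : ℕ) : (m τ (k + 1) : ℝ) < τ * m τ k + 1 := by
  rw [m_succ]; exact Nat.ceil_lt_add_one (by positivity)

lemma m_ge (k : ℕ) : 3 ≤ m τ k := by
  induction k with
  | zero => exact le_rfl
  | succ k ih =>
    have h := m_le hτ k
    have h2 : (3 : ℝ) ≤ m τ k := by exact_mod_cast ih
    have h3 : (3 : ℝ) ≤ m τ (k + 1) := by nlinarith
    exact_mod_cast h3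

lemma m_three (k : ℕ) : 3 * m τ k ≤ m τ (k + 1) := by
  have h := m_le hτ k
  have h2 : (3 : ℝ) ≤ m τ k := by exact_mod_cast m_ge hτ k
  have h3 : (3 : ℝ) * m τ k ≤ m τ (k + 1) := by nlinarith
  exact_mod_cast h3

lemma m_step (k : ℕ) : m τ k + 1 ≤ m τ (k + 1) := by
  have := m_three hτ k
  have := m_ge hτ k
  omega

lemma m_strictMono : StrictMono (m τ) := strictMono_nat_of_lt_succ fun k => m_step hτ k

lemma m_add (k j : ℕ) : m τ k + j ≤ m τ (k + j) := by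
  induction j with
  | zero => simp
  | succ j ih =>
    have h := m_step hτ (k + j)
    have h2 : k + (j + 1) = k + j + 1 := by omega
    rw [h2]
    omega

lemma m_ge_k (k : ℕ) : k + 3 ≤ m τ k := by
  have := m_add hτ 0 k
  simp only [zero_add] at this
  have := m_ge hτ 0
  omega

omit hτ in
lemma Q_pos (k : ℕ) : 0 < Q τ k := by unfold Q; positivity

lemma Q_ge (k : ℕ) : 27 ≤ Q τ k := by
  unfold Q
  calc (27 : ℝ) = 3 ^ 3 := by norm_num
    _ ≤ 3 ^ m τ k := pow_le_pow_right₀ (by norm_num) (m_ge hτ k)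

lemma Q_lower (k : ℕ) : (Q τ k) ^ τ ≤ Q τ (k + 1) := by
  unfold Q
  rw [← Real.rpow_natCast, ← Real.rpow_mul (by norm_num), ← Real.rpow_natCast]
  refine Real.rpow_le_rpow_of_exponent_le (by norm_num) ?_
  rw [mul_comm]; exact m_le hτ k

lemma Q_upper (k : ℕ) : Q τ (k + 1) ≤ 3 * (Q τ k) ^ τ := by
  unfold Q
  rw [← Real.rpow_natCast, ← Real.rpow_natCast 3 (m τ k), ← Real.rpow_mul (by norm_num)]
  have h : (3 : ℝ) * 3 ^ ((m τ k : ℝ) * τ) = 3 ^ ((m τ k : ℝ) * τ + 1) := by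
    rw [Real.rpow_add (by norm_num), Real.rpow_one]; ring
  rw [h]
  refine Real.rpow_le_rpow_of_exponent_le (by norm_num) ?_
  rw [mul_comm]; exact (m_lt hτ k).le

lemma Q_add (k j : ℕ) : (Q τ (k + j))⁻¹ ≤ (Q τ k)⁻¹ * (1 / 3) ^ j := by
  unfold Q
  rw [one_div, inv_pow, ← mul_inv, ← pow_add]
  apply inv_anti₀ (by positivity)
  exact pow_le_pow_right₀ (by norm_num) (m_add hτ k j)

lemma Q_lt (k : ℕ) : Q τ k < Q τ (k + 1) := by
  unfold Q
  exact pow_lt_pow_right₀ (by norm_num) (m_step hτ k)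

lemma Q_tendsto : Filter.Tendsto (Q τ) Filter.atTop Filter.atTop := by
  have h : Filter.Tendsto (m τ) Filter.atTop Filter.atTop := (m_strictMono hτ).tendsto_atTop
  exact (tendsto_pow_atTop_atTop_of_one_lt (by norm_num : (1:ℝ) < 3)).comp h

lemma tail_summable (k : ℕ) : Summable fun j => (Q τ (k + j))⁻¹ := by
  refine Summable.of_nonneg_of_le (fun j => (inv_pos.2 (Q_pos _)).le) (Q_add hτ k) ?_
  exact (summable_geometric_of_lt_one (by norm_num) (by norm_num)).mul_left _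

lemma Q_summable : Summable fun j => (Q τ j)⁻¹ := by
  simpa using tail_summable hτ 0

lemma X2_split (k : ℕ) :
    X2 τ = (∑ j ∈ range (k + 1), (Q τ j)⁻¹) + ∑' j, (Q τ (k + 1 + j))⁻¹ := by
  unfold X2
  rw [← (Q_summable hτ).sum_add_tsum_nat_add (k + 1)]
  congr 1
  refine tsum_congr fun j => ?_
  rw [add_comm j]

lemma tail_le (k : ℕ) : ∑' j, (Q τ (k + j))⁻¹ ≤ 2 * (Q τ k)⁻¹ := by
  have h1 : ∑' j, (Q τ (k + j))⁻¹ ≤ ∑' j, (Q τ k)⁻¹ * (1 / 3 : ℝ) ^ j :=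
    (tail_summable hτ k).tsum_le_tsum (Q_add hτ k)
      ((summable_geometric_of_lt_one (by norm_num) (by norm_num)).mul_left _)
  rw [tsum_mul_left, tsum_geometric_of_lt_one (by norm_num) (by norm_num)] at h1
  have := inv_pos.2 (Q_pos (τ := τ) k)
  norm_num at h1
  linarith

lemma le_tail (k : ℕ) : (Q τ k)⁻¹ ≤ ∑' j, (Q τ (k + j))⁻¹ := by
  have := (tail_summable hτ k).le_tsum 0 (fun j _ => (inv_pos.2 (Q_pos _)).le)
  simpa using this

lemma A_eq (k : ℕ) : ∑ j ∈ range (k + 1), (Q τ j)⁻¹ = A τ k / Q τ k := by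
  unfold A
  push_cast
  rw [sum_div]
  refine sum_congr rfl fun j hj => ?_
  rw [mem_range] at hj
  have h1 : m τ j ≤ m τ k := (m_strictMono hτ).monotone (by omega)
  unfold Q
  rw [pow_sub₀ _ (by norm_num) h1]
  field_simp

lemma A_coprime (k : ℕ) : IsCoprime ((2 * A τ k : ℕ) : ℤ) ((3 ^ m τ k : ℕ) : ℤ) := by
  rw [Nat.isCoprime_iff_coprime]
  apply Nat.Coprime.pow_right
  rw [Nat.coprime_comm, Nat.Prime.coprime_iff_not_dvd Nat.prime_three]
  intro h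
  have h2 : 3 ∣ A τ k := by
    rcases (Nat.Prime.dvd_mul Nat.prime_three).1 h with h | h
    · omega
    · exact h
  unfold A at h2
  rw [sum_range_succ, Nat.sub_self, pow_zero] at h2
  have h3 : 3 ∣ ∑ j ∈ range k, 3 ^ (m τ k - m τ j) := by
    refine dvd_sum fun j hj => ?_
    rw [mem_range] at hj
    have : m τ j < m τ k := m_strictMono hτ hj
    exact dvd_pow_self _ (by omega)
  omega

/-- the approximations -/
lemma approx (k : ℕ) : (Q τ (k + 1))⁻¹ ≤ X2 τ - A τ k / Q τ k ∧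
    X2 τ - A τ k / Q τ k ≤ 2 * (Q τ (k + 1))⁻¹ := by
  rw [X2_split hτ k, A_eq hτ]
  rw [add_sub_cancel_left]
  exact ⟨le_tail hτ (k + 1), tail_le hτ (k + 1)⟩

lemma X2_nonneg : 0 ≤ X2 τ := tsum_nonneg fun j => (inv_pos.2 (Q_pos _)).le

lemma X2_lt : X2 τ < 1 := by
  have h := tail_le hτ 0
  simp only [zero_add] at h
  have h2 := Q_ge hτ 0
  have h3 : (Q τ 0)⁻¹ ≤ 27⁻¹ := inv_anti₀ (by norm_num) h2
  have h4 : X2 τ = ∑' j, (Q τ j)⁻¹ := rfl
  rw [h4]
  linarith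

/-- dichotomy for good rational approximations to `2 X2` -/
lemma den_dich (k : ℕ) (u : ℤ) (q : ℕ) (hq : 0 < q) (hc : IsCoprime u (q : ℤ)) (R : ℝ)
    (hR : 4 * Q τ k ≤ R) (hu : |2 * X2 τ - u / q| ≤ 1 / (q * R)) :
    ((q : ℝ) = Q τ k ∧ 2 * (Q τ k * R) ≤ Q τ (k + 1)) ∨ 3 * Q τ (k + 1) ≤ 16 * (q * Q τ k) := by
  have hq' : (0 : ℝ) < q := by exact_mod_cast hq
  have hQ := Q_pos (τ := τ) k
  have hQ1 := Q_pos (τ := τ) (k + 1)
  have hR0 : 0 < R := by linarith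
  obtain ⟨h1, h2⟩ := approx hτ k
  have hQn : Q τ k = ((3 ^ m τ k : ℕ) : ℝ) := by unfold Q; push_cast; rfl
  by_cases hcase : u * ((3 ^ m τ k : ℕ) : ℤ) = ((2 * A τ k : ℕ) : ℤ) * q
  · left
    have hd1 : (q : ℤ) ∣ ((3 ^ m τ k : ℕ) : ℤ) := by
      apply hc.symm.dvd_of_dvd_mul_left
      rw [hcase]; exact dvd_mul_left _ _
    have hd2 : ((3 ^ m τ k : ℕ) : ℤ) ∣ (q : ℤ) := by
      apply (A_coprime hτ k).symm.dvd_of_dvd_mul_left
      rw [← hcase]; exact dvd_mul_left _ _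
    have hqq : q = 3 ^ m τ k := by
      exact Nat.dvd_antisymm (Int.natCast_dvd_natCast.1 hd1) (Int.natCast_dvd_natCast.1 hd2)
    have hqr : (q : ℝ) = Q τ k := by rw [hQn, hqq]
    refine ⟨hqr, ?_⟩
    have hcase' : (u : ℝ) * Q τ k = 2 * A τ k * q := by
      rw [hQn]; exact_mod_cast hcase
    have hu2 : (u : ℝ) / q = 2 * A τ k / Q τ k := by
      rw [div_eq_div_iff hq'.ne' hQ.ne']; exact hcase'
    rw [hu2, hqr] at hu
    have h3 : 2 * (Q τ (k + 1))⁻¹ ≤ 1 / (Q τ k * R) := by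
      refine le_trans ?_ hu
      refine le_trans ?_ (le_abs_self _)
      have : 2 * X2 τ - 2 * (A τ k : ℝ) / Q τ k = 2 * (X2 τ - A τ k / Q τ k) := by ring
      rw [this]
      linarith
    rw [← div_eq_mul_inv, div_le_div_iff₀ hQ1 (by positivity)] at h3
    linarith
  · right
    have h3 : 1 / (q * Q τ k) ≤ |(u : ℝ) / q - 2 * A τ k / Q τ k| := by
      have h4 : (u : ℝ) / q - 2 * A τ k / Q τ k =
          ((u * ((3 ^ m τ k : ℕ) : ℤ) - ((2 * A τ k : ℕ) : ℤ) * q : ℤ) : ℝ) / (q * Q τ k) := by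
        rw [hQn] at hQ ⊢
        push_cast
        push_cast at hQ
        field_simp
      rw [h4, abs_div, abs_of_pos (by positivity : 0 < (q : ℝ) * Q τ k)]
      apply div_le_div_of_nonneg_right _ (by positivity)
      have h5 : (1 : ℤ) ≤ |u * ((3 ^ m τ k : ℕ) : ℤ) - ((2 * A τ k : ℕ) : ℤ) * q| :=
        Int.one_le_abs (sub_ne_zero.2 hcase)
      exact_mod_cast h5
    have h6 : |(u : ℝ) / q - 2 * A τ k / Q τ k| ≤ 1 / (q * R) + 4 * (Q τ (k + 1))⁻¹ := by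
      have h7 : (u : ℝ) / q - 2 * A τ k / Q τ k =
          -(2 * X2 τ - u / q) + 2 * (X2 τ - A τ k / Q τ k) := by ring
      rw [h7]
      refine (abs_add_le _ _).trans ?_
      rw [abs_neg, abs_mul, abs_of_nonneg (by linarith [inv_pos.2 hQ1] : 0 ≤ X2 τ - A τ k / Q τ k)]
      rw [abs_of_pos (by norm_num : (0:ℝ) < 2)]
      linarith
    have h8 : 1 / (q * R) ≤ 1 / (4 * (q * Q τ k)) := by
      apply one_div_le_one_div_of_le (by positivity)
      nlinarith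
    have h9 : 1 / (q * Q τ k) - 1 / (4 * (q * Q τ k)) = 3 / (4 * (q * Q τ k)) := by
      field_simp; norm_num
    have h10 : 3 / (4 * (q * Q τ k)) ≤ 4 * (Q τ (k + 1))⁻¹ := by linarith
    rw [← div_eq_mul_inv, div_le_div_iff₀ (by positivity) hQ1] at h10
    linarith

/-- good rational approximations to `2 X2` have large denominators -/
lemma den_large (k : ℕ) (Y : ℝ) (hY1 : Q τ k ≤ Y) (hY2 : Y < Q τ (k + 1))
    (u : ℤ) (q : ℕ) (hq : 0 < q) (hc : IsCoprime u (q : ℤ))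
    (hu : |2 * X2 τ - u / q| ≤ 1 / (q * Y ^ (τ - 1))) : Y ≤ 6 * q := by
  have hq' : (0 : ℝ) < q := by exact_mod_cast hq
  have hQ := Q_pos (τ := τ) k
  have hQ1 := Q_pos (τ := τ) (k + 1)
  have hQ27 := Q_ge hτ k
  have hY0 : 0 < Y := by linarith
  have hYge1 : 1 ≤ Y := by linarith
  have hup := Q_upper hτ k
  have hlo := Q_lower hτ k
  have hsplit : (Q τ k) ^ τ = Q τ k * (Q τ k) ^ (τ - 1) := by
    rw [Real.rpow_sub_one hQ.ne']; field_simp
  have hmono : (Q τ k) ^ (τ - 1) ≤ Y ^ (τ - 1) :=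
    Real.rpow_le_rpow hQ.le hY1 (by linarith)
  have hsq : (Q τ k) ^ (2 : ℝ) ≤ (Q τ k) ^ (τ - 1) :=
    Real.rpow_le_rpow_of_exponent_le (by linarith) (by linarith)
  rw [Real.rpow_two] at hsq
  have hR : 4 * Q τ k ≤ Y ^ (τ - 1) := by nlinarith
  rcases den_dich hτ k u q hq hc _ hR hu with ⟨h1, h2⟩ | h2
  · -- `q = Q_k`
    have h3 : 2 * (Q τ k * Y ^ (τ - 1)) ≤ 3 * (Q τ k * (Q τ k) ^ (τ - 1)) := by
      rw [← hsplit]; linarith
    have h4 : 2 * Y ^ (τ - 1) ≤ 3 * (Q τ k) ^ (τ - 1) := by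
      by_contra h
      push Not at h
      have := mul_lt_mul_of_pos_left h hQ
      linarith
    -- `Y ≤ 6 Q_k`
    rw [h1]
    by_contra h
    push Not at h
    have h5 : (6 * Q τ k) ^ (τ - 1) ≤ Y ^ (τ - 1) :=
      Real.rpow_le_rpow (by positivity) h.le (by linarith)
    rw [Real.mul_rpow (by norm_num) hQ.le] at h5
    have h6 : (6 : ℝ) ≤ 6 ^ (τ - 1) := by
      calc (6 : ℝ) = 6 ^ (1 : ℝ) := by simp
        _ ≤ 6 ^ (τ - 1) := Real.rpow_le_rpow_of_exponent_le (by norm_num) (by linarith)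
    have h7 : 0 < (Q τ k) ^ (τ - 1) := by positivity
    nlinarith
  · by_cases hYc : Y ≤ (Q τ k) ^ (τ - 1)
    · -- `16 q ≥ 3 Q_k^(τ-1)`
      have h3 : 3 * (Q τ k * (Q τ k) ^ (τ - 1)) ≤ 16 * (q * Q τ k) := by
        rw [← hsplit]; linarith
      have h4 : 3 * (Q τ k) ^ (τ - 1) ≤ 16 * q := by
        by_contra h
        push Not at h
        have := mul_lt_mul_of_pos_left h hQ
        linarith
      linarith
    · push Not at hYc
      have hup1 := Q_upper hτ (k + 1)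
      have hlo1 := Q_lower hτ (k + 1)
      have hsplit1 : (Q τ (k + 1)) ^ τ = Q τ (k + 1) * (Q τ (k + 1)) ^ (τ - 1) := by
        rw [Real.rpow_sub_one hQ1.ne']; field_simp
      have hR1 : 4 * Q τ (k + 1) ≤ Y ^ (τ - 1) := by
        have h3 : ((Q τ k) ^ (τ - 1)) ^ (τ - 1) ≤ Y ^ (τ - 1) :=
          Real.rpow_le_rpow (by positivity) hYc.le (by linarith)
        rw [← Real.rpow_mul hQ.le] at h3
        have h4 : (Q τ k) ^ (τ + 1) ≤ (Q τ k) ^ ((τ - 1) * (τ - 1)) :=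
          Real.rpow_le_rpow_of_exponent_le (by linarith) (by nlinarith)
        rw [Real.rpow_add_one hQ.ne'] at h4
        have h5 : 0 < (Q τ k) ^ τ := by positivity
        nlinarith
      rcases den_dich hτ (k + 1) u q hq hc _ hR1 hu with ⟨h3, _⟩ | h3
      · rw [h3]; linarith
      · have h4 : 3 * (Q τ (k + 1) * (Q τ (k + 1)) ^ (τ - 1)) ≤ 16 * (q * Q τ (k + 1)) := by
          rw [← hsplit1]; linarith
        have h5 : 3 * (Q τ (k + 1)) ^ (τ - 1) ≤ 16 * q := by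
          by_contra h
          push Not at h
          have := mul_lt_mul_of_pos_left h hQ1
          linarith
        have h6 : Q τ (k + 1) ≤ (Q τ (k + 1)) ^ (τ - 1) := by
          calc Q τ (k + 1) = (Q τ (k + 1)) ^ (1 : ℝ) := by simp
            _ ≤ _ := Real.rpow_le_rpow_of_exponent_le (by linarith [Q_ge hτ (k + 1)]) (by linarith)
        linarith

end Pool.R357.WS
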