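import Pool.Agent.R357.WS.Weyl
import Pool.Agent.R357.WS.Seq

namespace Pool.R357.WS

open Finset

/-- the sum -/
noncomputable def S (x1 x2 : ℝ) (N : ℕ) : ℂ := ∑ n ∈ Ioc (0 : ℤ) N, e (x1 * n + x2 * n ^ 2)

lemma exists_level {τ : ℝ} (hτ : 3 < τ) (Y : ℝ) (hY : Q τ 0 ≤ Y) :
    ∃ k, Q τ k ≤ Y ∧ Y < Q τ (k + 1) := by
  classical
  have hex : ∃ k, Y < Q τ k := by
    obtain ⟨k, hk⟩ := ((Q_tendsto hτ).eventually_gt_atTop Y).exists
    exact ⟨k, hk⟩
  set k0 := Nat.find hex with hk0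
  have h1 : Y < Q τ k0 := Nat.find_spec hex
  have h2 : k0 ≠ 0 := by
    intro h; rw [h] at h1; linarith
  obtain ⟨k, hk⟩ := Nat.exists_eq_succ_of_ne_zero h2
  refine ⟨k, ?_, ?_⟩
  · by_contra h
    push Not at h
    have := Nat.find_min' hex h
    omega
  · rw [hk] at h1; exact h1

lemma log_bound (N : ℕ) (hN : 1 ≤ N) (ε : ℝ) (hε : 0 < ε) :
    ((Nat.log 2 N + 2 : ℕ) : ℝ) ≤ (2 / ε + 2) * (N : ℝ) ^ ε := by
  have hN' : (1 : ℝ) ≤ N := by exact_mod_cast hN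
  have h1 : (2 : ℝ) ^ (Nat.log 2 N) ≤ N := by
    exact_mod_cast Nat.pow_log_le_self 2 (by omega)
  have h2 : (Nat.log 2 N : ℝ) * Real.log 2 ≤ Real.log N := by
    rw [← Real.log_pow]
    exact Real.log_le_log (by positivity) h1
  have h3 : Real.log N ≤ (N : ℝ) ^ ε / ε := Real.log_le_rpow_div (by linarith) hε
  have h4 : (1 : ℝ) / 2 ≤ Real.log 2 := by
    have := Real.log_two_gt_d9; linarith
  have h5 : (0 : ℝ) ≤ Nat.log 2 N := by positivity
  have h6 : (1 : ℝ) ≤ (N : ℝ) ^ ε := Real.one_le_rpow hN' hε.le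
  have h7 : (Nat.log 2 N : ℝ) ≤ 2 * ((N : ℝ) ^ ε / ε) := by nlinarith
  push_cast
  have h8 : 2 * ((N : ℝ) ^ ε / ε) = 2 / ε * (N : ℝ) ^ ε := by ring
  rw [h8] at h7
  nlinarith

theorem upper {τ : ℝ} (hτ : 3 < τ) (x1 : ℝ) (s : ℝ) (hs : 1 - 1 / τ < s) :
    ∃ C : ℝ, ∀ᶠ N : ℕ in Filter.atTop, ‖S x1 (X2 τ) N‖ ≤ C * (N : ℝ) ^ s := by
  have hτ0 : 0 < τ := by linarith
  set a : ℝ := 1 - 1 / τ with ha
  have ha1 : 1 / τ < 1 / 3 := one_div_lt_one_div_of_lt (by norm_num) hτ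
  have ha2 : 2 / 3 < a := by rw [ha]; linarith
  set ε : ℝ := 2 * (s - a) with hε
  have hε0 : 0 < ε := by rw [hε]; linarith
  set C : ℝ := 162 * (2 / ε + 2) with hC
  have hC1 : 1 ≤ C := by
    have : 0 < 2 / ε := by positivity
    rw [hC]; linarith
  refine ⟨C, ?_⟩
  have hYt : Filter.Tendsto (fun N : ℕ => (N : ℝ) ^ (2 / τ)) Filter.atTop Filter.atTop :=
    (tendsto_rpow_atTop (by positivity)).comp tendsto_natCast_atTop_atTop
  filter_upwards [hYt.eventually_ge_atTop (Q τ 0), Filter.eventually_ge_atTop 1] with N hNY hN1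
  have hN' : (1 : ℝ) ≤ N := by exact_mod_cast hN1
  have hN0 : (0 : ℝ) < N := by linarith
  set Y : ℝ := (N : ℝ) ^ (2 / τ) with hY
  have hY0 : 0 < Y := by positivity
  obtain ⟨k, hk1, hk2⟩ := exists_level hτ Y hNY
  set R : ℝ := Y ^ (τ - 1) with hR
  have hRN : R = (N : ℝ) ^ (2 * a) := by
    rw [hR, hY, ← Real.rpow_mul hN0.le]
    congr 1
    rw [ha]; field_simp
  have hR1 : (N : ℝ) ≤ R := by
    rw [hRN]
    calc (N : ℝ) = (N : ℝ) ^ (1 : ℝ) := by simp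
      _ ≤ _ := Real.rpow_le_rpow_of_exponent_le hN' (by linarith)
  have hNY2 : (N : ℝ) ^ 2 = R * Y := by
    rw [hR, ← Real.rpow_add_one hY0.ne', hY, ← Real.rpow_mul hN0.le, ← Real.rpow_natCast]
    congr 1
    field_simp
    norm_num
  have hn : 0 < ⌊R⌋₊ := Nat.floor_pos.2 (by linarith)
  obtain ⟨r, hr1, hr2⟩ := Real.exists_rat_abs_sub_le_and_den_le (2 * X2 τ) hn
  have hq : 0 < r.den := r.den_pos
  have hq' : (0 : ℝ) < r.den := by exact_mod_cast hq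
  have hc : IsCoprime r.num (r.den : ℤ) := by
    rw [Int.isCoprime_iff_gcd_eq_one]
    have := r.reduced
    unfold Nat.Coprime at this
    simpa [Int.gcd] using this
  rw [Rat.cast_def] at hr1
  have hfl : R < ⌊R⌋₊ + 1 := Nat.lt_floor_add_one R
  have hfl2 : (⌊R⌋₊ : ℝ) ≤ R := Nat.floor_le (by linarith)
  have hqR : (r.den : ℝ) ≤ R := by
    have : (r.den : ℝ) ≤ ⌊R⌋₊ := by exact_mod_cast hr2
    linarith
  have hR0 : 0 < R := by linarith
  have hθ1 : |2 * X2 τ - r.num / r.den| ≤ 1 / (r.den * R) := by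
    refine hr1.trans ?_
    apply one_div_le_one_div_of_le (by positivity)
    nlinarith
  have hθ2 : |2 * X2 τ - r.num / r.den| ≤ 1 / (r.den : ℝ) ^ 2 := by
    refine hθ1.trans ?_
    apply one_div_le_one_div_of_le (by positivity)
    nlinarith
  have hden := den_large hτ k Y hk1 hk2 r.num r.den hq hc hθ1
  have hJ : N ≤ 2 ^ (Nat.log 2 N + 1) := (Nat.lt_pow_succ_log_self (by norm_num) N).le
  have hJ2 : (2 : ℝ) ^ (Nat.log 2 N + 1) ≤ 2 * N := by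
    have : (2 : ℝ) ^ (Nat.log 2 N) ≤ N := by
      exact_mod_cast Nat.pow_log_le_self 2 (by omega)
    rw [pow_succ]; linarith
  have hW := weyl x1 (X2 τ) r.num r.den hq hc hθ2 N (Nat.log 2 N + 1) hJ
  have hL := log_bound N hN1 ε hε0
  set L : ℝ := ((Nat.log 2 N + 2 : ℕ) : ℝ) with hLd
  have hL1 : 1 ≤ L := by rw [hLd]; push_cast; have : (0:ℝ) ≤ Nat.log 2 N := by positivity
                         linarith
  have hJL : (((Nat.log 2 N + 1 : ℕ) : ℝ) + 1) = L := by rw [hLd]; push_cast; ring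
  rw [hJL] at hW
  set q : ℝ := (r.den : ℝ) with hqd
  have h1 : ‖S x1 (X2 τ) N‖ ^ 2 ≤ 162 * (L * R) := by
    unfold S
    refine hW.trans ?_
    have h2 : (2 * (N : ℝ) / q + 1) * (2 * q * L + 6 * 2 ^ (Nat.log 2 N + 1)) ≤
        (2 * (N : ℝ) / q + 1) * (2 * q * L + 12 * N) := by
      apply mul_le_mul_of_nonneg_left _ (by positivity)
      linarith
    refine h2.trans ?_
    have h3 : (2 * (N : ℝ) / q + 1) * (2 * q * L + 12 * N) =
        4 * (N * L) + 24 * (N ^ 2 / q) + 2 * (q * L) + 12 * N := by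
      field_simp; ring
    rw [h3]
    have h4 : (N : ℝ) ^ 2 / q ≤ 6 * R := by
      rw [div_le_iff₀ hq', hNY2]
      nlinarith
    have hL0 : 0 ≤ L := by linarith
    have h5 : (N : ℝ) * L ≤ L * R := by rw [mul_comm]; exact mul_le_mul_of_nonneg_left hR1 hL0
    have h6 : q * L ≤ L * R := by rw [mul_comm]; exact mul_le_mul_of_nonneg_left hqR hL0
    have h7 : R ≤ L * R := le_mul_of_one_le_left hR0.le hL1
    linarith
  have h2 : L * R ≤ (2 / ε + 2) * ((N : ℝ) ^ s) ^ 2 := by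
    have h3 : L * R ≤ ((2 / ε + 2) * (N : ℝ) ^ ε) * R := mul_le_mul_of_nonneg_right hL hR0.le
    refine h3.trans (le_of_eq ?_)
    rw [hRN, mul_assoc, ← Real.rpow_add hN0, ← Real.rpow_natCast, ← Real.rpow_mul hN0.le]
    congr 2
    rw [hε]; push_cast; ring
  have h3 : ‖S x1 (X2 τ) N‖ ^ 2 ≤ (C * (N : ℝ) ^ s) ^ 2 := by
    have h4 : 0 ≤ ((N : ℝ) ^ s) ^ 2 := by positivity
    calc ‖S x1 (X2 τ) N‖ ^ 2 ≤ C * ((N : ℝ) ^ s) ^ 2 := by rw [hC]; linarith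
      _ ≤ C ^ 2 * ((N : ℝ) ^ s) ^ 2 := by
        apply mul_le_mul_of_nonneg_right _ h4
        nlinarith
      _ = _ := by ring
  exact (pow_le_pow_iff_left₀ (norm_nonneg _) (by positivity) (by norm_num)).1 h3

end Pool.R357.WS
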