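import Mathlib

namespace Pool.R357.WS

open Finset

/-- `e(t) = exp(2πit)`. -/
noncomputable def e (t : ℝ) : ℂ := Complex.exp ((2 * Real.pi * t : ℝ) * Complex.I)

lemma norm_e (t : ℝ) : ‖e t‖ = 1 := by
  unfold e; exact Complex.norm_exp_ofReal_mul_I _

lemma e_add (s t : ℝ) : e (s + t) = e s * e t := by
  unfold e
  rw [← Complex.exp_add]
  congr 1
  push_cast
  ring

lemma e_zero : e 0 = 1 := by simp [e]

lemma e_int (n : ℤ) : e (n : ℝ) = 1 := by
  unfold e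
  rw [show ((2 * Real.pi * (n : ℝ) : ℝ) : ℂ) * Complex.I = (n : ℂ) * (2 * Real.pi * Complex.I) by
    push_cast; ring]
  exact Complex.exp_int_mul_two_pi_mul_I n

lemma e_conj (t : ℝ) : (starRingEnd ℂ) (e t) = e (-t) := by
  unfold e
  rw [← Complex.exp_conj]
  congr 1
  rw [map_mul, Complex.conj_I, Complex.conj_ofReal]
  push_cast
  ring

lemma e_sub_one_le (t : ℝ) : ‖e t - 1‖ ≤ 2 * Real.pi * |t| := by
  unfold e
  rw [mul_comm]
  refine (Real.norm_exp_I_mul_ofReal_sub_one_le).trans ?_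
  rw [Real.norm_eq_abs, abs_mul, abs_of_pos (by positivity : (0:ℝ) < 2 * Real.pi)]

lemma e_sub_le (s t : ℝ) : ‖e s - e t‖ ≤ 2 * Real.pi * |s - t| := by
  have h : e s - e t = e t * (e (s - t) - 1) := by
    rw [mul_sub, ← e_add, mul_one]; congr 2; ring
  rw [h, norm_mul, norm_e, one_mul]
  exact e_sub_one_le _

lemma e_sub_one_ge (t : ℝ) (ht : |t| ≤ 1 / 2) : 4 * |t| ≤ ‖e t - 1‖ := by
  have h1 : ‖e t - 1‖ = 2 * |Real.sin (Real.pi * t)| := by
    unfold e
    rw [mul_comm, Complex.norm_exp_I_mul_ofReal_sub_one]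
    rw [Real.norm_eq_abs, abs_mul, abs_of_pos (by norm_num : (0:ℝ) < 2)]
    congr 3
    ring
  have h2 : |Real.pi * t| ≤ Real.pi / 2 := by
    rw [abs_mul, abs_of_pos Real.pi_pos]
    nlinarith [Real.pi_pos]
  have h3 := Real.mul_abs_le_abs_sin h2
  rw [abs_mul, abs_of_pos Real.pi_pos] at h3
  have h4 : 2 / Real.pi * (Real.pi * |t|) = 2 * |t| := by
    field_simp
  rw [h4] at h3
  rw [h1]
  linarith

lemma e_round (t : ℝ) : e (t - round t) = e t := by
  have : e t = e (t - round t) * e (round t) := by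
    rw [← e_add]; congr 1; ring
  rw [this, e_int, mul_one]

lemma geom_tele (β : ℝ) (a : ℤ) (k : ℕ) :
    (e β - 1) * ∑ n ∈ Ioc a (a + k), e (β * n) = e (β * (a + k + 1)) - e (β * (a + 1)) := by
  induction k with
  | zero => simp
  | succ k ih =>
    have h1 : Ioc a (a + ((k + 1 : ℕ) : ℤ)) = insert (a + k + 1) (Ioc a (a + k)) := by
      ext x; simp only [mem_Ioc, mem_insert]; push_cast; omega
    rw [h1, sum_insert (by simp), mul_add, ih]
    have h2 : e (β * ((a + k + 1 : ℤ) : ℝ)) = e (β * (a + k + 1)) := by push_cast; rfl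
    have h3 : e (β * ((a : ℝ) + ((k + 1 : ℕ) : ℝ) + 1)) = e β * e (β * (a + k + 1)) := by
      rw [← e_add]; congr 1; push_cast; ring
    rw [h2, h3]
    ring

lemma geom_le (β : ℝ) (a b : ℤ) :
    ‖∑ n ∈ Ioc a b, e (β * n)‖ * |β - round β| ≤ 1 / 2 := by
  have hx : |β - round β| ≤ 1 / 2 := abs_sub_round β
  rcases le_or_gt a b with hab | hab
  · obtain ⟨k, rfl⟩ : ∃ k : ℕ, b = a + k := ⟨(b - a).toNat, by omega⟩
    have h := geom_tele β a k
    have h1 : ‖(e β - 1) * ∑ n ∈ Ioc a (a + k), e (β * n)‖ ≤ 2 := by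
      rw [h]
      refine (norm_sub_le _ _).trans ?_
      rw [norm_e, norm_e]; norm_num
    rw [norm_mul] at h1
    have h2 : 4 * |β - round β| ≤ ‖e β - 1‖ := by
      rw [← e_round β]; exact e_sub_one_ge _ hx
    have h3 : 0 ≤ ‖∑ n ∈ Ioc a (a + (k:ℤ)), e (β * n)‖ := norm_nonneg _
    nlinarith
  · rw [Ioc_eq_empty (by omega)]
    simp

/-- Weyl differencing. -/
lemma sq_le (w : ℤ → ℂ) (N : ℕ) :
    ‖∑ n ∈ Ioc (0 : ℤ) N, w n‖ ^ 2 ≤
      ∑ h ∈ Ioo (-(N : ℤ)) N,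
        ‖∑ n ∈ (Ioc (0 : ℤ) N).filter (fun n => n + h ∈ Ioc (0 : ℤ) N),
          w (n + h) * (starRingEnd ℂ) (w n)‖ := by
  set S := ∑ n ∈ Ioc (0 : ℤ) N, w n with hS
  have h1 : ‖S‖ ^ 2 = ‖S * (starRingEnd ℂ) S‖ := by
    rw [norm_mul, RCLike.norm_conj, sq]
  have h2 : S * (starRingEnd ℂ) S = ∑ h ∈ Ioo (-(N : ℤ)) N,
      ∑ n ∈ (Ioc (0 : ℤ) N).filter (fun n => n + h ∈ Ioc (0 : ℤ) N),
          w (n + h) * (starRingEnd ℂ) (w n) := by
    have h3 : S * (starRingEnd ℂ) S = ∑ n ∈ Ioc (0 : ℤ) N, ∑ h ∈ Ioo (-(N : ℤ)) N,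
        if n + h ∈ Ioc (0 : ℤ) N then w (n + h) * (starRingEnd ℂ) (w n) else 0 := by
      have h4 : (starRingEnd ℂ) S = ∑ n ∈ Ioc (0 : ℤ) N, (starRingEnd ℂ) (w n) := by
        rw [hS, map_sum]
      rw [h4, mul_sum]
      refine sum_congr rfl fun n hn => ?_
      rw [hS, sum_mul, ← sum_filter]
      symm
      refine sum_nbij (fun h => n + h) ?_ ?_ ?_ ?_
      · intro h hh
        exact (mem_filter.1 hh).2
      · intro x _ y _ hxy
        simpa using hxy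
      · intro m hm
        refine ⟨m - n, ?_, by simp⟩
        simp only [coe_Ioc, Set.mem_Ioc] at hm
        simp only [mem_Ioc] at hn
        simp only [coe_filter, mem_Ioo, mem_Ioc, Set.mem_ofPred_eq]
        constructor
        · constructor <;> omega
        · constructor <;> omega
      · intro h _
        rfl
    rw [h3, sum_comm]
    refine sum_congr rfl fun h _ => ?_
    rw [sum_filter]
  rw [h1, h2]
  exact norm_sum_le _ _

lemma sq_le' (x1 x2 : ℝ) (N : ℕ) :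
    ‖∑ n ∈ Ioc (0 : ℤ) N, e (x1 * n + x2 * n ^ 2)‖ ^ 2 ≤
      ∑ h ∈ Ioo (-(N : ℤ)) N,
        ‖∑ n ∈ Ioc (max 0 (-h)) (min (N : ℤ) (N - h)), e (2 * x2 * h * n)‖ := by
  refine (sq_le (fun n : ℤ => e (x1 * n + x2 * n ^ 2)) N).trans ?_
  refine sum_le_sum fun h _ => ?_
  have h1 : (Ioc (0 : ℤ) N).filter (fun n => n + h ∈ Ioc (0 : ℤ) N) =
      Ioc (max 0 (-h)) (min (N : ℤ) (N - h)) := by
    ext n
    simp only [mem_filter, mem_Ioc]
    constructor
    · rintro ⟨⟨h1, h2⟩, h3, h4⟩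
      constructor
      · rw [max_lt_iff]; constructor <;> omega
      · rw [le_min_iff]; constructor <;> omega
    · rintro ⟨h1, h2⟩
      rw [max_lt_iff] at h1
      rw [le_min_iff] at h2
      refine ⟨⟨?_, ?_⟩, ?_, ?_⟩ <;> omega
  rw [h1]
  have h2 : ∀ n ∈ Ioc (max 0 (-h)) (min (N : ℤ) (N - h)),
      e (x1 * ((n + h : ℤ) : ℝ) + x2 * ((n + h : ℤ) : ℝ) ^ 2) *
        (starRingEnd ℂ) (e (x1 * n + x2 * n ^ 2)) =
      e (x1 * h + x2 * h ^ 2) * e (2 * x2 * h * n) := by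
    intro n _
    rw [e_conj, ← e_add, ← e_add]
    congr 1
    push_cast
    ring
  rw [sum_congr rfl h2, ← mul_sum, norm_mul, norm_e, one_mul]

lemma dyadic (x G : ℝ) (J : ℕ) (hx1 : x ≤ 1) (hG0 : 0 ≤ G) (hG : G ≤ 2 ^ J)
    (hG2 : G * x ≤ 1 / 2) :
    G ≤ ∑ j ∈ range (J + 1), if x ≤ (1 / 2) ^ j then (2 : ℝ) ^ j else 0 := by
  have hsum : ∀ j ∈ range (J + 1), x ≤ (1 / 2) ^ j →
      (2 : ℝ) ^ j ≤ ∑ j ∈ range (J + 1), if x ≤ (1 / 2) ^ j then (2 : ℝ) ^ j else 0 := by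
    intro j hj hxj
    have := single_le_sum (f := fun j => if x ≤ (1 / 2) ^ j then (2 : ℝ) ^ j else 0)
      (s := range (J + 1)) (fun i _ => by split_ifs <;> positivity) hj
    simp only [hxj, if_true] at this
    exact this
  by_cases hJ : x ≤ (1 / 2) ^ J
  · exact hG.trans (hsum J (by simp) hJ)
  · have hex : ∃ j, ¬ x ≤ (1 / 2) ^ j := ⟨J, hJ⟩
    classical
    set j0 := Nat.find hex with hj0
    have h1 : ¬ x ≤ (1 / 2) ^ j0 := Nat.find_spec hex
    have h2 : j0 ≤ J := Nat.find_min' hex hJ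
    have h3 : j0 ≠ 0 := by
      intro h
      rw [h] at h1
      simp at h1
      linarith
    obtain ⟨j, hj⟩ := Nat.exists_eq_succ_of_ne_zero h3
    have h4 : x ≤ (1 / 2) ^ j := by
      by_contra h
      have := Nat.find_min' hex h
      omega
    rw [hj] at h1
    push Not at h1
    have h5 : G ≤ 2 ^ j := by
      have h6 : G * (1 / 2) ^ (j + 1) ≤ 1 / 2 := by
        have : G * (1 / 2) ^ (j + 1) ≤ G * x := mul_le_mul_of_nonneg_left h1.le hG0
        linarith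
      have h7 : G * (1 / 2) ^ (j + 1) = G / 2 ^ j / 2 := by
        rw [pow_succ, one_div_pow]; ring
      rw [h7] at h6
      have h8 : G / 2 ^ j ≤ 1 := by linarith
      rwa [div_le_one (by positivity)] at h8
    exact h5.trans (hsum j (by simp; omega) h4)

/-- Counting in one block. -/
lemma count_block (θ : ℝ) (u : ℤ) (q : ℕ) (hq : 0 < q) (hc : IsCoprime u (q : ℤ))
    (hθ : |θ - u / q| ≤ 1 / (q : ℝ) ^ 2) (a : ℤ) (δ : ℝ) (hδ : 0 ≤ δ) :
    (((Ico a (a + q)).filter (fun h : ℤ => |θ * h - round (θ * h)| ≤ δ)).card : ℝ) ≤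
      2 * q * δ + 3 := by
  have hq' : (0 : ℝ) < q := by exact_mod_cast hq
  set s := (Ico a (a + q)).filter (fun h : ℤ => |θ * h - round (θ * h)| ≤ δ) with hs
  set f : ℤ → ℤ := fun h => u * (h - a) - q * round (θ * h) with hf
  set c : ℝ := - (q * (θ * a)) with hcdef
  set t := Icc ⌈c - (q * δ + 1)⌉ ⌊c + (q * δ + 1)⌋ with ht
  have hmaps : ∀ h ∈ s, f h ∈ t := by
    intro h hh
    rw [hs, mem_filter, mem_Ico] at hh
    obtain ⟨⟨h1, h2⟩, h3⟩ := hh
    have h4 : |(f h : ℝ) - c| ≤ q * δ + 1 := by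
      have h5 : (f h : ℝ) - c = q * (θ * h - round (θ * h)) - q * (θ - u / q) * (h - a) := by
        rw [hf, hcdef]
        push_cast
        field_simp
        ring
      rw [h5]
      refine (abs_sub _ _).trans ?_
      have h6 : |(q : ℝ) * (θ * h - round (θ * h))| ≤ q * δ := by
        rw [abs_mul, abs_of_pos hq']
        exact mul_le_mul_of_nonneg_left h3 hq'.le
      have h7 : |(q : ℝ) * (θ - u / q) * (h - a)| ≤ 1 := by
        rw [abs_mul, abs_mul, abs_of_pos hq']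
        have h8 : |((h : ℝ) - a)| ≤ q := by
          rw [abs_of_nonneg (by rw [sub_nonneg]; exact_mod_cast h1)]
          have : (h : ℝ) < a + q := by exact_mod_cast h2
          linarith
        calc (q : ℝ) * |θ - u / q| * |((h : ℝ) - a)| ≤ q * (1 / (q : ℝ) ^ 2) * q := by
              gcongr
          _ = 1 := by field_simp
      linarith
    rw [abs_le] at h4
    rw [ht, mem_Icc, Int.ceil_le, Int.le_floor]
    constructor <;> linarith
  have hinj : Set.InjOn f s := by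
    intro x hx y hy hxy
    rw [hs, mem_coe, mem_filter, mem_Ico] at hx hy
    have h1 : (q : ℤ) ∣ u * (x - y) := by
      refine ⟨round (θ * x) - round (θ * y), ?_⟩
      rw [hf] at hxy
      simp only at hxy
      linear_combination hxy
    have h2 : (q : ℤ) ∣ x - y := hc.symm.dvd_of_dvd_mul_left h1
    obtain ⟨k, hk⟩ := h2
    have hq0 : (0 : ℤ) < q := by exact_mod_cast hq
    have h3 : k = 0 := by
      by_contra hk0
      rcases lt_or_gt_of_ne hk0 with h | h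
      · have : (q : ℤ) * k ≤ -q := by nlinarith
        omega
      · have : (q : ℤ) * k ≥ q := by nlinarith
        omega
    rw [h3] at hk
    omega
  have hcard : s.card ≤ t.card := card_le_card_of_injOn f hmaps hinj
  have hcard2 : (t.card : ℝ) ≤ 2 * q * δ + 3 := by
    rw [ht, Int.card_Icc]
    have hnn : 0 ≤ ⌊c + (q * δ + 1)⌋ + 1 - ⌈c - (q * δ + 1)⌉ := by
      have h1 : (⌈c - (q * δ + 1)⌉ : ℝ) < c - (q * δ + 1) + 1 := Int.ceil_lt_add_one _
      have h2 : c + (q * δ + 1) < ⌊c + (q * δ + 1)⌋ + 1 := Int.lt_floor_add_one _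
      have h3 : (⌈c - (q * δ + 1)⌉ : ℝ) < ⌊c + (q * δ + 1)⌋ + 1 + 1 := by
        have : 0 ≤ q * δ := by positivity
        linarith
      have h4 : ⌈c - (q * δ + 1)⌉ < ⌊c + (q * δ + 1)⌋ + 1 + 1 := by exact_mod_cast h3
      omega
    have h5 : (((⌊c + (q * δ + 1)⌋ + 1 - ⌈c - (q * δ + 1)⌉).toNat : ℕ) : ℝ) =
        ((⌊c + (q * δ + 1)⌋ + 1 - ⌈c - (q * δ + 1)⌉ : ℤ) : ℝ) := by
      have := Int.toNat_of_nonneg hnn
      exact_mod_cast this
    rw [h5]
    push_cast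
    have h1 : c - (q * δ + 1) ≤ ⌈c - (q * δ + 1)⌉ := Int.le_ceil _
    have h2 : (⌊c + (q * δ + 1)⌋ : ℝ) ≤ c + (q * δ + 1) := Int.floor_le _
    linarith
  calc (s.card : ℝ) ≤ t.card := by exact_mod_cast hcard
    _ ≤ _ := hcard2

lemma count_blocks (θ : ℝ) (u : ℤ) (q : ℕ) (hq : 0 < q) (hc : IsCoprime u (q : ℤ))
    (hθ : |θ - u / q| ≤ 1 / (q : ℝ) ^ 2) (a : ℤ) (δ : ℝ) (hδ : 0 ≤ δ) (B : ℕ) :
    (((Ico a (a + q * B)).filter (fun h : ℤ => |θ * h - round (θ * h)| ≤ δ)).card : ℝ) ≤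
      B * (2 * q * δ + 3) := by
  induction B with
  | zero => simp
  | succ B ih =>
    have h1 : (Ico a (a + q * ((B + 1 : ℕ) : ℤ))).filter
          (fun h : ℤ => |θ * h - round (θ * h)| ≤ δ) =
        (Ico a (a + q * B)).filter (fun h : ℤ => |θ * h - round (θ * h)| ≤ δ) ∪
        (Ico (a + q * B) (a + q * B + q)).filter (fun h : ℤ => |θ * h - round (θ * h)| ≤ δ) := by
      rw [← filter_union]
      congr 1
      ext x
      simp only [mem_union, mem_Ico]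
      push_cast
      have h2 : (0 : ℤ) ≤ q * B := by positivity
      have h3 : (0 : ℤ) < q := by exact_mod_cast hq
      rw [mul_add, mul_one]
      constructor
      · rintro ⟨h4, h5⟩
        by_cases h6 : x < a + q * B
        · left; exact ⟨h4, h6⟩
        · right; constructor <;> linarith
      · rintro (⟨h4, h5⟩ | ⟨h4, h5⟩) <;> constructor <;> linarith
    rw [h1]
    have h2 := card_union_le
      ((Ico a (a + q * B)).filter (fun h : ℤ => |θ * h - round (θ * h)| ≤ δ))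
      ((Ico (a + q * B) (a + q * B + q)).filter (fun h : ℤ => |θ * h - round (θ * h)| ≤ δ))
    have h3 := count_block θ u q hq hc hθ (a + q * B) δ hδ
    have h2' : ((((Ico a (a + q * B)).filter (fun h : ℤ => |θ * h - round (θ * h)| ≤ δ)) ∪
      ((Ico (a + q * B) (a + q * B + q)).filter
        (fun h : ℤ => |θ * h - round (θ * h)| ≤ δ))).card : ℝ) ≤
      (((Ico a (a + q * B)).filter (fun h : ℤ => |θ * h - round (θ * h)| ≤ δ)).card : ℝ) +
      (((Ico (a + q * B) (a + q * B + q)).filter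
        (fun h : ℤ => |θ * h - round (θ * h)| ≤ δ)).card : ℝ) := by
      exact_mod_cast h2
    refine h2'.trans ?_
    push_cast
    linarith

/-- **Weyl's inequality for quadratic polynomials.** -/
theorem weyl (x1 x2 : ℝ) (u : ℤ) (q : ℕ) (hq : 0 < q) (hc : IsCoprime u (q : ℤ))
    (hθ : |2 * x2 - u / q| ≤ 1 / (q : ℝ) ^ 2) (N J : ℕ) (hJ : N ≤ 2 ^ J) :
    ‖∑ n ∈ Ioc (0 : ℤ) N, e (x1 * n + x2 * n ^ 2)‖ ^ 2 ≤
      (2 * N / q + 1) * (2 * q * (J + 1) + 6 * 2 ^ J) := by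
  have hq' : (0 : ℝ) < q := by exact_mod_cast hq
  set θ := 2 * x2 with hθd
  set B : ℕ := ⌈(2 * N / q : ℝ)⌉₊ with hB
  have hB1 : (B : ℝ) ≤ 2 * N / q + 1 := (Nat.ceil_lt_add_one (by positivity)).le
  have hB2 : (2 * N : ℝ) ≤ q * B := by
    have := Nat.le_ceil (2 * N / q : ℝ)
    rw [div_le_iff₀ hq'] at this
    linarith
  have hB3 : (2 * N : ℤ) ≤ q * B := by exact_mod_cast hB2
  set T := Ico (-(N : ℤ)) (-(N : ℤ) + q * B) with hT
  have hsub : Ioo (-(N : ℤ)) N ⊆ T := by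
    intro x hx
    rw [mem_Ioo] at hx
    rw [hT, mem_Ico]
    constructor <;> linarith
  refine (sq_le' x1 x2 N).trans ?_
  have hN : (N : ℝ) ≤ 2 ^ J := by exact_mod_cast hJ
  have h1 : ∀ h ∈ Ioo (-(N : ℤ)) N,
      ‖∑ n ∈ Ioc (max 0 (-h)) (min (N : ℤ) (N - h)), e (θ * h * n)‖ ≤
      ∑ j ∈ range (J + 1), if |θ * h - round (θ * h)| ≤ (1 / 2) ^ j then (2 : ℝ) ^ j else 0 := by
    intro h _
    refine dyadic _ _ J ?_ (norm_nonneg _) ?_ (geom_le _ _ _)
    · have := abs_sub_round (θ * h); linarith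
    · refine (norm_sum_le _ _).trans ?_
      simp only [norm_e, sum_const, nsmul_eq_mul, mul_one]
      rw [Int.card_Ioc]
      have h2 : (min (N : ℤ) (N - h) - max 0 (-h)).toNat ≤ N := by
        have h3 : min (N : ℤ) (N - h) ≤ N := min_le_left _ _
        have h4 : 0 ≤ max 0 (-h) := le_max_left _ _
        omega
      have h3 : ((min (N : ℤ) (N - h) - max 0 (-h)).toNat : ℝ) ≤ N := by exact_mod_cast h2
      exact h3.trans hN
  refine (sum_le_sum h1).trans ?_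
  refine (sum_le_sum_of_subset_of_nonneg hsub (fun _ _ _ => sum_nonneg fun j _ => by
    split_ifs <;> positivity)).trans ?_
  rw [sum_comm]
  have h2 : ∀ j ∈ range (J + 1),
      (∑ h ∈ T, if |θ * h - round (θ * h)| ≤ (1 / 2) ^ j then (2 : ℝ) ^ j else 0) ≤
      B * (2 * q + 3 * 2 ^ j) := by
    intro j _
    rw [← sum_filter, sum_const, nsmul_eq_mul]
    have h3 := count_blocks θ u q hq hc hθ (-(N : ℤ)) ((1 / 2) ^ j) (by positivity) B
    calc _ ≤ (B * (2 * q * (1 / 2) ^ j + 3)) * (2 : ℝ) ^ j := by gcongr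
      _ = B * (2 * q * ((1 / 2) ^ j * 2 ^ j) + 3 * 2 ^ j) := by ring
      _ = B * (2 * q + 3 * 2 ^ j) := by rw [← mul_pow]; norm_num
  refine (sum_le_sum h2).trans ?_
  have h5 : ∑ j ∈ range (J + 1), (B : ℝ) * (2 * q + 3 * 2 ^ j) =
      (B : ℝ) * (((J + 1 : ℕ) : ℝ) * (2 * q) + 3 * ∑ j ∈ range (J + 1), (2 : ℝ) ^ j) := by
    rw [← mul_sum, sum_add_distrib, sum_const, card_range, nsmul_eq_mul, mul_sum]
  rw [h5]
  have h3 : ∑ j ∈ range (J + 1), (2 : ℝ) ^ j ≤ 2 * 2 ^ J := by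
    rw [geom_sum_eq (by norm_num)]
    rw [pow_succ]
    norm_num
    linarith
  have h4 : ((J + 1 : ℕ) : ℝ) * (2 * q) + 3 * ∑ j ∈ range (J + 1), (2 : ℝ) ^ j ≤
      2 * q * (J + 1) + 6 * 2 ^ J := by
    push_cast
    linarith
  calc (B : ℝ) * (((J + 1 : ℕ) : ℝ) * (2 * q) + 3 * ∑ j ∈ range (J + 1), (2 : ℝ) ^ j)
      ≤ (2 * N / q + 1) * (2 * q * (J + 1) + 6 * 2 ^ J) := by gcongr

end Pool.R357.WS
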